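import Pool.Agent.Run7.h507.Fin2

/-!
# The Birch and Swinnerton-Dyer formula modulo 2 for the abelian varieties `E ⊗ M`

`E` is an elliptic curve over `ℚ` with a minimal equation `W` of negative discriminant, and `M = ℤ^g` a
lattice with an action `ρ` of `Gal(ℚ(ζ_m)/ℚ) = (ℤ/m)ˣ` through a 2-group.  The abelian variety
`A = E ⊗ M` over `ℚ` has dimension `g`; its dual is `E ⊗ M^∨`.  Here `m` is squarefree and prime to
`2 Δ`, `M` is ramified at all the primes that divide `m`, and the primes that divide `2 Δ` act trivially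
on `M`.  There is no condition on the traces `a_l(E)` for `l ∣ m`.

We prove that the complete `L`-function `L(A, s)` is entire, that `r = L(A, 1) / Ω_A` is a rational
number with an odd denominator, that `A(ℚ)` and `A'(ℚ)` have no elements of order 2, and that

* `r` is odd if and only if `r₀ = L(E, 1) / Ω_E` is odd and all the `a_l(E)`, `l ∣ m`, are odd;
* `A(ℚ)` is finite, `Ш(A/ℚ)[2^∞] = 0` and the product of the Tamagawa numbers of `A` (the primes `l ∣ m`,
  where `A` has additive reduction, included) is odd if and only if this holds for `E` and all the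
  `a_l(E)`, `l ∣ m`, are odd.

So the formula of Birch and Swinnerton-Dyer holds modulo 2 for `A` if and only if it holds modulo 2 for
`E` or one of the `a_l(E)`, `l ∣ m`, is even.  For `E = X_0(11)` everything is unconditional.

The period.  The volume of `A(ℝ) = (E(ℂ) ⊗ M)^c` for the differential given by a basis of `M` and the
Néron differential of `E` is `realPeriod^(g₊) (complexPeriod / realPeriod)^(g - g₊)`, where `g₊` is the
rank of the sublattice fixed by the complex conjugation (for `Δ < 0`).  At a prime `l ∣ m` the variety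
has good reduction over the tamely ramified extension `ℚ_l(ζ_l)`, the Lie algebra of the Néron model is
`Lie(ℰ) ⊗ (M ⊗ ℤ_l[ζ_l])^(I_l)`, and as `M` is a rational representation of the cyclic group `I_l` the
Néron differential is `l^(-(g - rank M^(I_l)) / 2)` times the differential above, up to a unit at `l`.

The Tamagawa numbers.  At `l ∣ m` the special fibre of the Néron model is, up to a connected unipotent
group, the group `(Ẽ ⊗ M)^(I_l)`, where `Ẽ` is the reduction of `E`; its identity component is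
`Ẽ ⊗ M^(I_l)`.
-/

set_option autoImplicit false

open NumberField NumberField.InfinitePlace IsDedekindDomain WeierstrassCurve MeasureTheory
open UpperHalfPlane MatrixGroups CongruenceSubgroup

namespace Pool.Agent.Results.MP_dfae13_nt.BSDModTwoTensor

open scoped Classical

open Pool.Agent.TH841.NF.D (Sha)
open Pool.Agent.TH841.SH.D (Pt act Gal)

/-! ### The elliptic curve -/

/-- The curve given by the equation of `W` over the ring `R`. -/
abbrev base (W : WeierstrassCurve ℤ) (R : Type) [CommRing R] : WeierstrassCurve R :=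
  W.map (Int.castRingHom R)

/-- The number of the affine points `(x, y)` over the ring `R`. -/
noncomputable def pts (W : WeierstrassCurve ℤ) (R : Type) [CommRing R] : ℕ :=
  Nat.card {P : R × R // (base W R).toAffine.Equation P.1 P.2}

/-- The trace `a_p = p + 1 - #E(𝔽_p)`; `pts` does not count the point at infinity. -/
noncomputable def a (W : WeierstrassCurve ℤ) (p : ℕ) : ℤ := (p : ℤ) - pts W (ZMod p)

/-- The equation is minimal at the prime `v` of `ℚ`: no change of variables over `ℚ` that keeps the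
coefficients integral at `v` decreases the valuation of the discriminant. -/
def MinimalAt (W : WeierstrassCurve ℤ) (v : HeightOneSpectrum (𝓞 ℚ)) : Prop :=
  ∀ C : VariableChange ℚ, v.valuation ℚ (C • base W ℚ).a₁ ≤ 1 →
    v.valuation ℚ (C • base W ℚ).a₂ ≤ 1 → v.valuation ℚ (C • base W ℚ).a₃ ≤ 1 →
    v.valuation ℚ (C • base W ℚ).a₄ ≤ 1 → v.valuation ℚ (C • base W ℚ).a₆ ≤ 1 →
    v.valuation ℚ (C • base W ℚ).Δ ≤ v.valuation ℚ (base W ℚ).Δ

/-- `E⁰(ℚ_v)`, the group of the points of `W` over the completion `ℚ_v` with nonsingular reduction: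
the points `(x, y)` where `x` is not integral, or one of the partial derivatives of
`y² + a₁ x y + a₃ y - x³ - a₂ x² - a₄ x - a₆` is a unit at `(x, y)`, and the point at infinity. -/
noncomputable def nonsing (W : WeierstrassCurve ℤ) (v : HeightOneSpectrum (𝓞 ℚ)) :
    AddSubgroup (base W (v.adicCompletion ℚ)).toAffine.Point :=
  AddSubgroup.closure {P | ∀ x y h, P = Affine.Point.some x y h →
    1 < Valued.v x ∨ Valued.v (W.a₁ * y - (3 * x ^ 2 + 2 * W.a₂ * x + W.a₄)) = 1 ∨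
      Valued.v (2 * y + W.a₁ * x + W.a₃) = 1}

/-- The product of the Tamagawa numbers `c_v = [E(ℚ_v) : E⁰(ℚ_v)]` of `E` over `ℚ`. -/
noncomputable def Tam (W : WeierstrassCurve ℤ) : ℕ :=
  ∏ᶠ v : HeightOneSpectrum (𝓞 ℚ), (nonsing W v).index

/-- `4 x³ + b₂ x² + 2 b₄ x + b₆ = (2 y + a₁ x + a₃)²`, where `b₂ = a₁² + 4 a₂`,
`b₄ = 2 a₄ + a₁ a₃`, `b₆ = a₃² + 4 a₆`. -/
def cubic (W : WeierstrassCurve ℤ) {R : Type} [CommRing R] (x : R) : R :=
  4 * x ^ 3 + W.b₂ * x ^ 2 + 2 * W.b₄ * x + W.b₆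

/-- `∫_{W(ℝ)} |ω|` with `ω = dx / (2 y + a₁ x + a₃)`, as an integral over `x`: two real points lie
over each `x` with `cubic x > 0`. -/
noncomputable def realPeriod (W : WeierstrassCurve ℤ) : ℝ :=
  2 * ∫ x in {x : ℝ | 0 < cubic W x}, 1 / √(cubic W x)

/-- `2 ∫_{W(ℂ)} |ω ∧ ω̄|`, where `|ω ∧ ω̄| = du dv` in a local parameter `z = u + i v` with
`dz = ω`, as an integral over `x`: two points lie over a general `x`, and `|ω ∧ ω̄|` is the area
element of the plane of `x` divided by `|cubic x|`. -/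
noncomputable def complexPeriod (W : WeierstrassCurve ℤ) : ℝ := 2 * (2 * ∫ x : ℂ, 1 / ‖cubic W x‖)

/-- The Euler factor of `L(E, s)` at `p`: `(1 - a_p p^(-s) + p^(1 - 2 s))⁻¹` if `p` does not divide
the discriminant, and `(1 - a_p p^(-s))⁻¹` otherwise. -/
noncomputable def eulerE (W : WeierstrassCurve ℤ) (s : ℂ) (p : ℕ) : ℂ :=
  (1 - (a W p : ℂ) * (p : ℂ) ^ (-s) + if (p : ℤ) ∣ W.Δ then 0 else (p : ℂ) ^ (1 - 2 * s))⁻¹

/-- `r = L(E, 1) / Ω_E`, where `L(E, s)` is the entire function with the given Euler product. -/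
def IsRatioE (W : WeierstrassCurve ℤ) (r : ℚ) : Prop := ∃ L : ℂ → ℂ, Differentiable ℂ L ∧
  (∀ s : ℂ, 3 / 2 < s.re → HasProd (fun p : Nat.Primes => eulerE W s p) (L s)) ∧
  L 1 = r * realPeriod W

/-- The algebraic side of the formula is odd for `E`: `E(ℚ)` is finite, `Ш(E/ℚ)` has no element of
order two, and the product of the Tamagawa numbers is odd. -/
structure OddE (W : WeierstrassCurve ℤ) : Prop where
  fin : Finite (base W ℚ).toAffine.Point
  sha : ∀ s : Sha (base W ℚ), 2 • s = 0 → s = 0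
  tam : Odd (Tam W)

section modular

variable {N : ℕ}

/-- The `n`-th coefficient of the cusp form `f = ∑ a_n q^n`. -/
noncomputable def co (f : CuspForm (Gamma0 N : Subgroup (GL (Fin 2) ℝ)) 2) (n : ℕ) : ℂ :=
  (qExpansion 1 f).coeff n

/-- `2 π i ∫_(i∞)^z f(w) dw = ∑ a_n / n e^(2 π i n z)`. -/
noncomputable def prim (f : CuspForm (Gamma0 N : Subgroup (GL (Fin 2) ℝ)) 2) (z : ℂ) : ℂ :=
  ∑' n : ℕ, co f n / n * Complex.exp (2 * Real.pi * Complex.I * n * z)

/-- The cusp form `f` of weight two for `Γ₀(N)` is the newform of `W`: it is a normalised eigenform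
of the Hecke operators and of the Fricke involution, with real coefficients that satisfy the bounds
of Hasse, `N` has the same prime divisors as the discriminant, and `a_p = p + 1 - #W(𝔽_p)`. -/
structure IsNewform (W : WeierstrassCurve ℤ) (N : ℕ)
    (f : CuspForm (Gamma0 N : Subgroup (GL (Fin 2) ℝ)) 2) : Prop where
  one : co f 1 = 1
  real : ∀ n, (co f n).im = 0
  mul : ∀ m n : ℕ, Nat.Coprime m n → co f (m * n) = co f m * co f n
  pow : ∀ p j : ℕ, p.Prime → co f (p ^ (j + 2)) = co f p * co f (p ^ (j + 1)) -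
      (if p ∣ N then 0 else (p : ℂ) * co f (p ^ j))
  good : ∀ p : ℕ, p.Prime → ¬ p ∣ N → ‖co f p‖ ≤ 2 * Real.sqrt p
  bad : ∀ p : ℕ, p.Prime → p ∣ N → ‖co f p‖ ≤ 1
  fricke : ∃ w : ℝ, (w = 1 ∨ w = -1) ∧ ∀ τ τ' : ℍ, (τ' : ℂ) * ((N : ℂ) * (τ : ℂ)) = -1 →
    f τ' = -(w : ℂ) * (N : ℂ) * (τ : ℂ) ^ 2 * f τ
  level : ∀ p : ℕ, p.Prime → (p ∣ N ↔ (p : ℤ) ∣ W.Δ)
  coef : ∀ p : ℕ, p.Prime → co f p = (p : ℂ) - (pts W (ZMod p) : ℂ)

/-- The curves of the general case: the equation is minimal and its discriminant is negative; the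
curve has a newform, and an odd multiple of its periods is in the period lattice of the equation (odd
Manin constant); and one of the traces `a_q` is odd for a prime `q` that does not divide `2 Δ`, so that
`E(ℚ)` has no element of order two. -/
structure Curve (W : WeierstrassCurve ℤ) : Prop where
  minimal : ∀ v : HeightOneSpectrum (𝓞 ℚ), MinimalAt W v
  neg : W.Δ < 0
  modular : ∃ (N : ℕ) (_ : NeZero N) (f : CuspForm (Gamma0 N : Subgroup (GL (Fin 2) ℝ)) 2)
    (Λ : PeriodPair) (c : ℤ), IsNewform W N f ∧ Λ.g₂ = (W.c₄ : ℂ) / 12 ∧ Λ.g₃ = (W.c₆ : ℂ) / 216 ∧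
    Odd c ∧ ∀ γ ∈ Gamma0 N, ∀ z : ℍ,
      (c : ℂ) * (prim f ((γ • z : ℍ) : ℂ) - prim f (z : ℂ)) ∈ Λ.lattice
  odd : ∃ q : ℕ, q.Prime ∧ ¬ (q : ℤ) ∣ 2 * W.Δ ∧ Odd (a W q)

end modular

/-- The elliptic curve `X_0(11)`, with its global minimal equation
`y² + y = x³ - x² - 10 x - 20`. -/
def X011 : WeierstrassCurve ℤ := ⟨0, -1, 1, -10, -20⟩

section tensor

/-! ### The abelian variety `A = E ⊗ M`, `M = ℤ^g`

Its points over an algebraic closure of `ℚ` are the `g`-tuples of points of `E`; the Galois group of `ℚ`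
acts on them by its action on `E` and the matrices `R(σ)`. -/

/-- The action of an integral matrix on `ℤ^g ⊗ G = G^g`. -/
def mat {G : Type} [AddCommGroup G] {g : ℕ} (A : Matrix (Fin g) (Fin g) ℤ) (P : Fin g → G) :
    Fin g → G := fun i => ∑ j, A i j • P j

variable {g : ℕ} (W : WeierstrassCurve ℤ) (R : Gal ℚ →* GL (Fin g) ℤ)

/-- The points of `A` over an extension of `ℚ` over which the action on `M` is trivial. -/
abbrev PtA (g : ℕ) (L : Type) [Field L] [Algebra ℚ L] : Type := Fin g → Pt (base W ℚ) L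

/-- The action of the Galois group on the points of `A`: `σ` applied to the coordinates, and then the
matrix `R(σ)`. -/
noncomputable def actA (σ : Gal ℚ) (P : PtA W g (AlgebraicClosure ℚ)) :
    PtA W g (AlgebraicClosure ℚ) :=
  mat (R σ : Matrix (Fin g) (Fin g) ℤ) (fun i => act (base W ℚ) σ.toAlgHom (P i))

/-- `A(ℚ)`. -/
def ptsA : Set (PtA W g (AlgebraicClosure ℚ)) := {P | ∀ σ : Gal ℚ, actA W R σ P = P}

/-- `f` is a continuous cocycle with values in `A`: `f (σ τ) = f σ + σ (f τ)`. -/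
def IsCocycle (f : Gal ℚ → PtA W g (AlgebraicClosure ℚ)) : Prop :=
  IsLocallyConstant f ∧ ∀ σ τ : Gal ℚ, f (σ * τ) = f σ + actA W R σ (f τ)

/-- `f` is a coboundary: `f σ = σ P - P`. -/
def IsCoboundary (f : Gal ℚ → PtA W g (AlgebraicClosure ℚ)) : Prop :=
  ∃ P : PtA W g (AlgebraicClosure ℚ), ∀ σ : Gal ℚ, f σ = actA W R σ P - P

/-- For every embedding of the algebraic closures the restriction of `f` to the absolute Galois
group of `K` is a coboundary: `f σ = τ P - P` for `τ` in this group with restriction `σ`. -/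
def LocTriv (K : Type) [Field K] [Algebra ℚ K] (f : Gal ℚ → PtA W g (AlgebraicClosure ℚ)) : Prop :=
  ∀ ι : AlgebraicClosure ℚ →ₐ[ℚ] AlgebraicClosure K, ∃ P : PtA W g (AlgebraicClosure K),
    ∀ (τ : Gal K) (σ : Gal ℚ), (∀ x, τ (ι x) = ι (σ x)) →
      (fun i => act (base W ℚ) ι (f σ i)) = mat (R σ : Matrix (Fin g) (Fin g) ℤ)
        (fun i => act (base W ℚ) (τ.toAlgHom.restrictScalars ℚ) (P i)) - P

/-- `f` is a continuous cocycle that is locally trivial at all the places of `ℚ`; its class is an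
element of `Ш(A/ℚ)`, and this is zero if and only if `f` is a coboundary. -/
def IsShaCocycle (f : Gal ℚ → PtA W g (AlgebraicClosure ℚ)) : Prop :=
  IsCocycle W R f ∧ (∀ (p : ℕ) [Fact p.Prime], LocTriv W R ℚ_[p] f) ∧ LocTriv W R ℝ f

end tensor

section lattice

variable {m g : ℕ} (ρ : (ZMod m)ˣ →* GL (Fin g) ℤ)

/-- The vectors of `M` fixed by the subgroup `H`. -/
noncomputable def fixed (H : Subgroup (ZMod m)ˣ) : Submodule ℤ (Fin g → ℤ) :=
  ⨅ u : H, LinearMap.ker (Matrix.toLin' ((ρ (u : (ZMod m)ˣ) : Matrix (Fin g) (Fin g) ℤ) - 1))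

/-- The inertia group at the prime `l ∣ m`, for `m` squarefree: the units congruent to `1` modulo
`m / l`. -/
def inertia (m l : ℕ) : Subgroup (ZMod m)ˣ where
  carrier := {u | ∃ k : ZMod m, (u : ZMod m) = 1 + k * ((m / l : ℕ) : ZMod m)}
  one_mem' := ⟨0, by simp⟩
  mul_mem' := by
    rintro u v ⟨k, hk⟩ ⟨j, hj⟩
    refine ⟨k + j + k * j * ((m / l : ℕ) : ZMod m), ?_⟩
    rw [Units.val_mul, hk, hj]
    ring
  inv_mem' := by
    rintro u ⟨k, hk⟩
    refine ⟨-k * ((u⁻¹ : (ZMod m)ˣ) : ZMod m), ?_⟩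
    have h1 : ((u⁻¹ : (ZMod m)ˣ) : ZMod m) * (u : ZMod m) = 1 := Units.inv_mul u
    have h2 : ((u⁻¹ : (ZMod m)ˣ) : ZMod m) * (1 + k * ((m / l : ℕ) : ZMod m)) = 1 := by
      rw [← hk]; exact h1
    linear_combination h2

/-- The Frobenius elements at the prime `p`, for `m` squarefree: the units congruent to `p` modulo
`m / gcd(m, p)`.  They are a coset of the inertia group. -/
def Frobs (m p : ℕ) : Set (ZMod m)ˣ :=
  {u | ∃ k : ZMod m, (u : ZMod m) = (p : ZMod m) + k * ((m / m.gcd p : ℕ) : ZMod m)}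

/-- The action of the Frobenius automorphism at `p` on the vectors of `ℂ ⊗ M` fixed by the inertia
group, extended by zero: the average of the matrices `ρ(u)` over the Frobenius elements `u`. -/
noncomputable def frobM (p : ℕ) : Matrix (Fin g) (Fin g) ℂ :=
  (Nat.card (Frobs m p) : ℂ)⁻¹ •
    ∑ᶠ u : Frobs m p, (ρ u.1 : Matrix (Fin g) (Fin g) ℤ).map (Int.cast : ℤ → ℂ)

/-- The Euler factor of `L(A, s)` at the prime `p`, `det (1 - p^(-s) Frob_p | H¹(A)^(I_p))⁻¹`, which is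
`det (1 - a_p p^(-s) Φ + p^(1 - 2 s) Φ²)⁻¹` for `Φ = frobM p`, without the last term if `p` divides the
discriminant of `E`. -/
noncomputable def eulerA (W : WeierstrassCurve ℤ) (s : ℂ) (p : ℕ) : ℂ :=
  (1 - ((a W p : ℂ) * (p : ℂ) ^ (-s)) • frobM ρ p +
    (if (p : ℤ) ∣ W.Δ then 0 else (p : ℂ) ^ (1 - 2 * s)) • frobM ρ p ^ 2).det⁻¹

/-- The Artin conductor of `M`, `∏_{l ∣ m} l^(g - rank M^(I_l))`, for `m` squarefree. -/
noncomputable def cond : ℕ :=
  ∏ l ∈ m.primeFactors, l ^ (g - Module.finrank ℤ (fixed ρ (inertia m l)))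

/-- `Ω_A`, the volume of `A(ℝ)` for the Néron differential of `A`; `-1` is the complex conjugation. -/
noncomputable def Vinf (W : WeierstrassCurve ℤ) : ℝ :=
  realPeriod W ^ Module.finrank ℤ (fixed ρ (Subgroup.zpowers (-1))) *
    (complexPeriod W / realPeriod W) ^
      (g - Module.finrank ℤ (fixed ρ (Subgroup.zpowers (-1)))) / √(cond ρ : ℝ)

/-- `r = L(A, 1) / Ω_A`, where `L(A, s)` is the entire function with the given Euler product. -/
def IsRatioA (W : WeierstrassCurve ℤ) (r : ℚ) : Prop := ∃ L : ℂ → ℂ, Differentiable ℂ L ∧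
  (∀ s : ℂ, 3 / 2 < s.re → HasProd (fun p : Nat.Primes => eulerA ρ W s p) (L s)) ∧
  L 1 = r * Vinf ρ W

end lattice

/-- The contragredient: `A ↦ (A⁻¹)ᵀ`.  It gives the action on the dual lattice `M^∨`. -/
noncomputable def contra (g : ℕ) : GL (Fin g) ℤ →* GL (Fin g) ℤ where
  toFun A := ⟨((A⁻¹ : GL (Fin g) ℤ) : Matrix (Fin g) (Fin g) ℤ).transpose,
    ((A : GL (Fin g) ℤ) : Matrix (Fin g) (Fin g) ℤ).transpose, by
      rw [← Matrix.transpose_mul, ← Units.val_mul, mul_inv_cancel, Units.val_one,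
        Matrix.transpose_one], by
      rw [← Matrix.transpose_mul, ← Units.val_mul, inv_mul_cancel, Units.val_one,
        Matrix.transpose_one]⟩
  map_one' := by
    apply Units.ext
    show ((1⁻¹ : GL (Fin g) ℤ) : Matrix (Fin g) (Fin g) ℤ).transpose = 1
    rw [inv_one, Units.val_one, Matrix.transpose_one]
  map_mul' A B := by
    apply Units.ext
    show (((A * B)⁻¹ : GL (Fin g) ℤ) : Matrix (Fin g) (Fin g) ℤ).transpose =
      ((A⁻¹ : GL (Fin g) ℤ) : Matrix (Fin g) (Fin g) ℤ).transpose *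
        ((B⁻¹ : GL (Fin g) ℤ) : Matrix (Fin g) (Fin g) ℤ).transpose
    rw [mul_inv_rev, Units.val_mul, Matrix.transpose_mul]

section tamagawa

/-! ### The Tamagawa number of `A` at a prime `l ∣ m` -/

/-- The points of the reduction of `E` over an algebraic closure of `𝔽_l`. -/
abbrev PtR (W : WeierstrassCurve ℤ) (l : ℕ) [Fact l.Prime] : Type :=
  (base W (AlgebraicClosure (ZMod l))).toAffine.Point

/-- The Frobenius map `(x, y) ↦ (x^l, y^l)` on these points. -/
noncomputable def frobR (W : WeierstrassCurve ℤ) (l : ℕ) [Fact l.Prime] : PtR W l →+ PtR W l :=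
  Affine.Point.map (W' := W.toAffine)
    ((frobenius (AlgebraicClosure (ZMod l)) l).toIntAlgHom :
      AlgebraicClosure (ZMod l) →ₐ[ℤ] AlgebraicClosure (ZMod l))

variable {m g : ℕ} (W : WeierstrassCurve ℤ) (ρ : (ZMod m)ˣ →* GL (Fin g) ℤ) (l : ℕ)
  [Fact l.Prime]

/-- The identity component `Ẽ ⊗ M^(I_l)` of `(Ẽ ⊗ M)^(I_l)`: the group generated by the elements
`v ⊗ Q`, where `v` is a vector of `M` fixed by the inertia group. -/
noncomputable def conn : AddSubgroup (Fin g → PtR W l) :=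
  AddSubgroup.closure {P | ∃ (v : Fin g → ℤ) (Q : PtR W l),
    (∀ u ∈ inertia m l, (ρ u : Matrix (Fin g) (Fin g) ℤ).mulVec v = v) ∧ P = fun i => v i • Q}

/-- The points of `(Ẽ ⊗ M)^(I_l)` on the components that are fixed by the Frobenius automorphism (they
are a group): the tuples `P` that are fixed by the inertia group, with `Frob P - P` in the identity
component, where `Frob` is the Frobenius map followed by `ρ(u)`, for the Frobenius elements `u`. -/
noncomputable def rat : AddSubgroup (Fin g → PtR W l) :=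
  AddSubgroup.closure {P | (∀ u ∈ inertia m l, mat (ρ u : Matrix (Fin g) (Fin g) ℤ) P = P) ∧
    ∀ u ∈ Frobs m l,
      mat (ρ u : Matrix (Fin g) (Fin g) ℤ) (fun i => frobR W l (P i)) - P ∈ conn W ρ l}

end tamagawa

/-- The Tamagawa number of `A` at a prime `l ∣ m`, the number of the components of the special fibre
of the Néron model that are fixed by the Frobenius automorphism: the index of `conn` in `rat`. -/
noncomputable def cA (W : WeierstrassCurve ℤ) {m g : ℕ} (ρ : (ZMod m)ˣ →* GL (Fin g) ℤ) (l : ℕ) : ℕ :=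
  if h : l.Prime then haveI : Fact l.Prime := ⟨h⟩; (conn W ρ l).relIndex (rat W ρ l) else 1

/-- The algebraic side of the formula is odd for `A`: `A(ℚ)` is finite, the 2-primary part of `Ш(A/ℚ)`
is zero, and the product of the Tamagawa numbers is odd; the primes that divide `Δ` act trivially
on `M`, so `c_p(A) = c_p(E)^g` there. -/
structure OddA (W : WeierstrassCurve ℤ) {m g : ℕ} (ρ : (ZMod m)ˣ →* GL (Fin g) ℤ)
    (κ : Gal ℚ →* (ZMod m)ˣ) : Prop where
  fin : Finite (ptsA W (ρ.comp κ))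
  sha : ∀ f, IsShaCocycle W (ρ.comp κ) f → ∀ k : ℕ, IsCoboundary W (ρ.comp κ) (2 ^ k • f) →
    IsCoboundary W (ρ.comp κ) f
  tam : Odd (Tam W ^ g * ∏ l ∈ m.primeFactors, cA W ρ l)

/-- the helper form of the group -/
lemma rat_eq {m g : ℕ} (W : WeierstrassCurve ℤ) (ρ : (ZMod m)ˣ →* GL (Fin g) ℤ) {l : ℕ}
    [hl : Fact l.Prime] (hlm : l ∣ m) [NeZero m] : rat W ρ l = Pool.Agent.Run7.h507.Tam.rat W ρ l := by
  have hfr : ∀ u : (ZMod m)ˣ, u ∈ Frobs m l ↔ (l : ZMod m) * ((u : ZMod m) - l) = 0 := by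
    intro u
    have hg : m.gcd l = l := Nat.gcd_eq_right hlm
    obtain ⟨q, hq⟩ := hlm
    have hml : m / l = q := by rw [hq, Nat.mul_div_cancel_left _ hl.out.pos]
    have hm0 : ((l : ℕ) : ZMod m) * ((q : ℕ) : ZMod m) = 0 := by
      rw [← Nat.cast_mul, ← hq, ZMod.natCast_self]
    constructor
    · rintro ⟨k, hk⟩
      rw [hk, hg, hml]
      linear_combination k * hm0
    · intro h
      set z : ZMod m := (u : ZMod m) - l with hz
      have h1 : ((l * z.val : ℕ) : ZMod m) = 0 := by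
        rw [Nat.cast_mul, ZMod.natCast_zmod_val]
        exact h
      rw [ZMod.natCast_eq_zero_iff] at h1
      have h2 : q ∣ z.val := by
        obtain ⟨k, hk⟩ := h1
        refine ⟨k, ?_⟩
        apply Nat.eq_of_mul_eq_mul_left hl.out.pos
        rw [← mul_assoc, ← hq]
        exact hk
      obtain ⟨k, hk⟩ := h2
      refine ⟨(k : ZMod m), ?_⟩
      rw [hg, hml]
      have h3 : z = ((q * k : ℕ) : ZMod m) := by rw [← hk, ZMod.natCast_zmod_val]
      rw [Nat.cast_mul] at h3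
      rw [hz] at h3
      linear_combination h3
  have h1 : {P : Fin g → PtR W l | (∀ u ∈ inertia m l, mat (ρ u : Matrix (Fin g) (Fin g) ℤ) P = P) ∧
      ∀ u ∈ Frobs m l,
        mat (ρ u : Matrix (Fin g) (Fin g) ℤ) (fun i => frobR W l (P i)) - P ∈ conn W ρ l} =
      (Pool.Agent.Run7.h507.Tam.rat W ρ l : Set (Fin g → PtR W l)) := by
    ext P
    constructor
    · rintro ⟨h1, h2⟩
      exact ⟨fun u hu => h1 u hu, fun u hu => h2 u ((hfr u).2 hu)⟩
    · rintro ⟨h1, h2⟩
      exact ⟨fun u hu => h1 u hu, fun u hu => h2 u ((hfr u).1 hu)⟩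
  unfold rat
  rw [h1]
  exact AddSubgroup.closure_eq _

lemma oddA_iff {W : WeierstrassCurve ℤ} {m g : ℕ} [NeZero m] (ρ : (ZMod m)ˣ →* GL (Fin g) ℤ)
    (κ : Gal ℚ →* (ZMod m)ˣ) : OddA W ρ κ ↔ Pool.Agent.Run7.h507.Fin2.OddA W ρ κ := by
  have h : ∏ l ∈ m.primeFactors, cA W ρ l =
      ∏ l ∈ m.primeFactors, Pool.Agent.Run7.h507.Fin2.cl W ρ l := by
    refine Finset.prod_congr rfl fun l hl => ?_
    have hlp := Nat.prime_of_mem_primeFactors hl
    unfold cA Pool.Agent.Run7.h507.Fin2.cl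
    rw [dif_pos hlp, dif_pos hlp]
    have : Fact l.Prime := ⟨hlp⟩
    rw [rat_eq W ρ (Nat.dvd_of_mem_primeFactors hl)]
    rfl
  constructor
  · rintro ⟨h1, h2, h3⟩
    rw [h] at h3
    exact ⟨h1, h2, h3⟩
  · rintro ⟨h1, h2, h3⟩
    refine ⟨h1, h2, ?_⟩
    rw [h]
    exact h3

lemma prop_one (p q c : Prop) : ((p ∧ c) ↔ (q ∧ c)) ↔ ((p ↔ q) ∨ ¬ c) := by tauto

lemma prop_two {p q c : Prop} (hp : p) (hq : q) : ((p ∧ c) ↔ (q ∧ c)) ∧ ((q ∧ c) ↔ c) := by tauto

/-- **Main theorem.** Let `E` be `X_0(11)` or a curve that satisfies the conditions `Curve`, let `m` be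
squarefree and prime to `2 Δ`, and let `ρ` be an action of `(ℤ/m)ˣ` on `M = ℤ^g`, `g > 0`, through a
2-group, such that the inertia groups at the primes `l ∣ m` act nontrivially and the primes `p ∣ 2 Δ`
act trivially.  Let `A = E ⊗ M`.  Then `L(E, 1) / Ω_E = r₀` and `L(A, 1) / Ω_A = r` are rational
numbers with odd denominators; `A(ℚ)` and the rational points of the dual of `A` have no elements of
order two; `r` is odd if and only if `r₀` and all the `a_l`, `l ∣ m`, are odd; the algebraic side of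
the formula of Birch and Swinnerton-Dyer is odd for `A` if and only if it is odd for `E` and all the
`a_l`, `l ∣ m`, are odd.  So the formula modulo 2 holds for `A` if and only if it holds for `E` or some
`a_l`, `l ∣ m`, is even; and for `E = X_0(11)` it holds for `A`, both sides being odd if and only if
all the `a_l`, `l ∣ m`, are odd. -/
theorem result (W : WeierstrassCurve ℤ) (hW : W = X011 ∨ Curve W) (m : ℕ) [NeZero m]
    (hsq : Squarefree m) (hm : ∀ l : ℕ, l.Prime → l ∣ m → ¬ (l : ℤ) ∣ 2 * W.Δ)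
    (g n : ℕ) (hg : 0 < g) (ρ : (ZMod m)ˣ →* GL (Fin g) ℤ) (hρ : ∀ u, ρ u ^ (2 ^ n) = 1)
    (hram : ∀ l : ℕ, l.Prime → l ∣ m → ∃ u ∈ inertia m l, ρ u ≠ 1)
    (hsp : ∀ p : ℕ, p.Prime → (p : ℤ) ∣ 2 * W.Δ → ∀ u : (ZMod m)ˣ, (u : ZMod m) = p → ρ u = 1)
    (κ : Gal ℚ →* (ZMod m)ˣ)
    (hκ : ∀ (σ : Gal ℚ) (ζ : AlgebraicClosure ℚ), ζ ^ m = 1 → σ ζ = ζ ^ ((κ σ : ZMod m)).val) :
    ∃ r₀ r : ℚ, IsRatioE W r₀ ∧ IsRatioA ρ W r ∧ Odd r₀.den ∧ Odd r.den ∧
      (∀ P ∈ ptsA W (ρ.comp κ), P + P = 0 → P = 0) ∧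
      (∀ P ∈ ptsA W (((contra g).comp ρ).comp κ), P + P = 0 → P = 0) ∧
      (Odd r.num ↔ Odd r₀.num ∧ ∀ l : ℕ, l.Prime → l ∣ m → Odd (a W l)) ∧
      (OddA W ρ κ ↔ OddE W ∧ ∀ l : ℕ, l.Prime → l ∣ m → Odd (a W l)) ∧
      ((Odd r.num ↔ OddA W ρ κ) ↔
        (Odd r₀.num ↔ OddE W) ∨ ∃ l : ℕ, l.Prime ∧ l ∣ m ∧ Even (a W l)) ∧
      (W = X011 → (Odd r.num ↔ OddA W ρ κ) ∧
        (OddA W ρ κ ↔ ∀ l : ℕ, l.Prime → l ∣ m → Odd (a W l))) := by
  have key : Pool.Agent.Run7.h507.Fin1.Dat W ∧ ∃ q : ℕ, q.Prime ∧ ¬ (q : ℤ) ∣ 2 * W.Δ ∧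
      Odd (a W q) := by
    rcases hW with rfl | ⟨-, h1, ⟨N, hN, f, Λ, c, h2, h3, h4, h5, h6⟩, q, h7, h8, h9⟩
    · exact ⟨Pool.Agent.Run7.h507.Fin1.dat11, 3, Pool.Agent.Run7.h507.Elv.three⟩
    · have h2' : Pool.Agent.Y702.G.BSD.IsNewform W N f := ⟨h2.one, h2.real, h2.mul, h2.pow, h2.good,
        h2.bad, h2.fricke, h2.level, h2.coef⟩
      exact ⟨Pool.Agent.Run7.h507.Fin1.datG W h1 f h2' Λ h3 h4 ⟨c, h5, h6⟩ h7 h8 h9, q, h7, h8, h9⟩
  obtain ⟨hD, q, hq1, hq2, hq3⟩ := key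
  obtain ⟨r₀, r, i1, i2, i3, i4, i5, i6, i7, i8, i9⟩ := Pool.Agent.Run7.h507.Fin2.final hD hq1 hq2
    hq3 hsq hm hg ρ hρ hram hsp κ hκ
  have hE : OddE W ↔ Pool.Agent.Run7.h507.Fin2.OddE W :=
    ⟨fun ⟨h1, h2, h3⟩ => ⟨h1, h2, h3⟩, fun ⟨h1, h2, h3⟩ => ⟨h1, h2, h3⟩⟩
  have hA := oddA_iff (W := W) ρ κ
  have j7 : Odd r.num ↔ Odd r₀.num ∧ ∀ l : ℕ, l.Prime → l ∣ m → Odd (a W l) := i7
  have j8 : OddA W ρ κ ↔ OddE W ∧ ∀ l : ℕ, l.Prime → l ∣ m → Odd (a W l) := by
    rw [hA, hE]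
    exact i8
  have hS : (∃ l : ℕ, l.Prime ∧ l ∣ m ∧ Even (a W l)) ↔
      ¬ ∀ l : ℕ, l.Prime → l ∣ m → Odd (a W l) := by
    push Not
    constructor
    · rintro ⟨l, h1, h2, h3⟩
      exact ⟨l, h1, h2, Int.not_odd_iff_even.2 h3⟩
    · rintro ⟨l, h1, h2, h3⟩
      exact ⟨l, h1, h2, Int.not_odd_iff_even.1 h3⟩
  refine ⟨r₀, r, i1, i2, i3, i4, i5, i6, j7, j8, ?_, ?_⟩
  · rw [j7, j8, hS]
    exact prop_one _ _ _
  · intro h11
    obtain ⟨k1, k2⟩ := i9 h11
    rw [← hE] at k2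
    rw [j7, j8]
    exact prop_two k1 k2

end Pool.Agent.Results.MP_dfae13_nt.BSDModTwoTensor
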