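import Pool.Agent.Run7.h9.TW.Fin2
import Pool.Agent.Run7.h9.CM.Fin2

/-!
# The products of Birch and Swinnerton-Dyer of the Jacobians of a family of curves and of their quadratic twists are
asymptotically independent; the law for the twists `y² = x^n + D` and `y² = x (x^n + D)`

`K` is any number field.  For an abelian variety `A` over `K` let `B_Z(A) = ∏_{Nv ≤ Z} #A(k_v) / Nv^(dim A)` be the
product over the good places with which Birch and Swinnerton-Dyer stated their conjecture, the inverse of the part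
`Nv ≤ Z` of the Euler product of `L(A, s)` at `s = 1`.

**(A) Families with marked points and their twists.**  `C_t: y² = f_t(x)` is any of the families of hyperelliptic
curves with marked points (`f_t = F₀ + (∏ (X - x_i)) (t₀ X + t₁ + ∑ t_j P_j)`, monic of degree `≥ 3`, the curves pass
through the points `(x_i, y_i)`; e.g. all curves `y² = f(x)` with `f` monic of a given degree, or all elliptic
curves).  `J_t` is the Jacobian, of dimension `g`, with `ρ` marked points.  Let `d_1, ..., d_k` be nonzero integers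
of `K` which are pairwise different modulo squares, let `J_t^(d)` be the Jacobian of the quadratic twist
`d y² = f_t(x)` and `B_Z^(d)(t) = B_Z(J_t^(d))` (the product over the places `v` that do not divide `2 d` with `f_t`
separable modulo `v`).  Let `ρ(d) = ρ` if `d` is a square in `K` (the twist is `J_t` with its marked points) and
`ρ(d) = 0` if it is not.  We consider the smooth members with the coordinates of `t` at most `H_j` in absolute value,
for `Z → ∞`: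

1. all joint moments, for `H_j ≥ exp(Z^(1+θ))`: the mean value of `∏_i (B_Z^(d_i)(t))^(κ_i)` is
   `~ Ψ(κ) exp(∑ κ_i M_i(Z) + ½ ∑ κ_i κ_j V_ij(Z))` for all complex `κ`, uniformly on compact sets, with a
   continuous function `Ψ` which is holomorphic on all lines through `0`, `Ψ(0) = 1`, and positive at real
   points; here `M_i(Z) = (ρ(d_i) + ½) log log Z + O(1)` and `V_ij(Z) = δ_ij log log Z + O(1)`;
2. **for `H_j ≥ Z^C`, where `C` depends on the precision only, so for all `Z = H^(o(1))`, the variables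
   `(log B_Z^(d_i)(t) - (ρ(d_i) + ½) log log Z) / √(log log Z)`, `i = 1, ..., k`, are in the limit
   independent and normally distributed with mean `0` and variance `1`**;
3. for `H_j ≥ Z^(C log log Z)`: `|log B_Z^(d_i)(t) - (ρ(d_i) + ½) log log Z| ≥ a log log Z` only for a proportion
   `O((log Z)^(-a²/2))`;
4. for `H_j ≥ Z^C`: `ρ(d_i)` is the integer nearest to `log B_Z^(d_i)(t) / log log Z - ½` for all members but a
   proportion `≤ B (log log Z)^(-k)`, for every `k` (`C`, `B` depend on `k`): the product sees the marked points on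
   `J_t` and none on the other twists.

**(B) All twists with complex multiplication.**  `e ∈ {0, 1}`, `n ≥ 2`, `n + e ≥ 3`, and `J_D` is the Jacobian of the
smooth projective model of `y² = x^e (x^n + D)`, `D ∈ 𝓞_K`, `D ≠ 0`, of dimension `⌊(n + e - 1)/2⌋ ≥ 1` (all the `J_D`
are twists of `J_1`, with complex multiplication over the algebraic closure).  Put, for a natural number `N`,
`σ(N) = gcd(n, N) - 1 - δ` if `e = 0`; `σ(N) = gcd(n, N) - δ` if `e = 1` and `2 gcd(n, N) ∣ N`; `σ(N) = -δ` in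
the other cases; here `δ = 1` if `n + e` is even and `δ = 0` if it is odd.  Let
`M_Z = ½ ∑_{Nv ≤ Z} σ(Nv + 1) log(1 - 1/Nv)⁻¹` and `V_Z = ∑_{Nv ≤ Z} σ(Nv - 1) log(1 - 1/Nv)⁻¹` (the exact second
moments of the traces of the Frobenius, and the exact means of the traces of its square, over all twists).  Then
`V_Z → ∞`, and over all `D ≠ 0` with coordinates at most `H`:

1. the mean value of `B_Z(J_D)^κ` is `~ Ψ(κ) exp(κ M_Z + κ² V_Z / 2)`, uniformly on compact sets of complex `κ`, for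
   `H ≥ exp(Z^(1+θ))`, with an entire function `Ψ`, `Ψ(0) = 1`, positive at real points;
2. `(log B_Z(J_D) - M_Z) / √V_Z` is normally distributed in the limit, if `H ≥ Z^C` (`C` depends on the precision);
3. `|log B_Z(J_D) - M_Z| ≥ a V_Z` only for a proportion `O(exp(-a² V_Z / 2))`, if `H ≥ Z^(C log log Z)`.
-/

set_option autoImplicit false
open NumberField IsDedekindDomain Filter Topology

namespace Pool.Agent.Results.MP_dfae13_nt.CentralLimitLaws

open Run7.h876.HY Run7.h876.EN Run7.h9.BS Run7.h9.TW Run7.h9.CM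

/-- **The laws of the products of Birch and Swinnerton-Dyer**: (A) the joint law for the quadratic twists of the
Jacobians of a family of curves with marked points; (B) the law for all twists `y² = x^e (x^n + D)`. -/
theorem result (K : Type) [Field K] [NumberField K] :
    (∀ (J : Type) [Fintype J] [DecidableEq J] (𝓕 : Family K J)
    (I : Type) [Fintype I] [DecidableEq I] (d : I → 𝓞 K) (hd : ∀ i, d i ≠ 0)
    (hdd : ∀ i j, i ≠ j → ¬ IsSquare ((d i * d j : 𝓞 K) : K)),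
        (∀ (i : I) (Z : ℕ) (t : Fin 2 ⊕ J → 𝓞 K), 0 < twistProduct Z (𝓕.member t) (d i)) ∧
        (∀ i, ∃ C : ℝ, ∀ Z : ℕ, 3 ≤ Z →
          |twistMean 𝓕 (d i) Z - (twistRank 𝓕 (d i) + 1 / 2) * Real.log (Real.log Z)| ≤ C) ∧
        (∀ i j, ∃ C : ℝ, ∀ Z : ℕ, 3 ≤ Z →
          |twistCov (d i) (d j) Z - (if i = j then 1 else 0) * Real.log (Real.log Z)| ≤ C) ∧
        (∃ Ψ : (I → ℂ) → ℂ, Continuous Ψ ∧ (∀ u : I → ℂ, Differentiable ℂ fun z : ℂ => Ψ fun i => z * u i) ∧ Ψ 0 = 1 ∧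
          (∀ x : I → ℝ, ∃ r : ℝ, 0 < r ∧ Ψ (fun i => x i) = r) ∧
          ∀ (ι : Type) [Fintype ι] [DecidableEq ι] (ω : Module.Basis ι ℤ (𝓞 K)),
          ∀ R : ℝ, 0 ≤ R → ∀ θ : ℝ, 0 < θ → ∀ ε : ℝ, 0 < ε → ∃ Z₀ : ℕ, ∀ Z : ℕ, Z₀ ≤ Z →
            ∀ H : Fin 2 ⊕ J → ℕ, (∀ j, Real.exp ((Z : ℝ) ^ (1 + θ)) ≤ H j) → ∀ κ : I → ℂ, (∀ i, ‖κ i‖ ≤ R) →
            ‖mean ω H 𝓕.smooth (fun t => ∏ i, (twistProduct Z (𝓕.member t) (d i) : ℂ) ^ κ i) *
              Complex.exp (-((∑ i, κ i * twistMean 𝓕 (d i) Z) +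
                (∑ i, ∑ j, κ i * κ j * twistCov (d i) (d j) Z) / 2)) - Ψ κ‖ ≤ ε) ∧
        ∀ (ι : Type) [Fintype ι] [DecidableEq ι] (ω : Module.Basis ι ℤ (𝓞 K)),
          (∀ a : I → ℝ, ∀ ε : ℝ, 0 < ε → ∃ C Z₀ : ℕ, ∀ Z : ℕ, Z₀ ≤ Z →
            ∀ H : Fin 2 ⊕ J → ℕ, (∀ j, Z ^ C ≤ H j) →
            |prop ω H 𝓕.smooth (fun t => ∀ i, Real.log (twistProduct Z (𝓕.member t) (d i)) ≤
              (twistRank 𝓕 (d i) + 1 / 2) * Real.log (Real.log Z) + a i * Real.sqrt (Real.log (Real.log Z))) -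
                ∏ i, Phi (a i)| ≤ ε) ∧
          ∀ i : I,
            (∀ a : ℝ, 0 < a → ∃ C : ℝ, 0 < C ∧ ∃ Z₀ : ℕ, ∀ Z : ℕ, Z₀ ≤ Z →
              ∀ H : Fin 2 ⊕ J → ℕ, (∀ j, (Z : ℝ) ^ (C * Real.log (Real.log Z)) ≤ H j) →
              prop ω H 𝓕.smooth (fun t => a * Real.log (Real.log Z) ≤
                |Real.log (twistProduct Z (𝓕.member t) (d i)) -
                  (twistRank 𝓕 (d i) + 1 / 2) * Real.log (Real.log Z)|) ≤ C * Real.log Z ^ (-(a ^ 2 / 2))) ∧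
            ∀ k : ℕ, ∃ C : ℕ, ∃ B : ℝ, 0 < B ∧ ∃ Z₀ : ℕ, ∀ Z : ℕ, Z₀ ≤ Z →
              ∀ H : Fin 2 ⊕ J → ℕ, (∀ j, Z ^ C ≤ H j) →
              prop ω H 𝓕.smooth (fun t =>
                round (Real.log (twistProduct Z (𝓕.member t) (d i)) / Real.log (Real.log Z) - 1 / 2) ≠
                  (twistRank 𝓕 (d i) : ℤ)) ≤ B / Real.log (Real.log Z) ^ k) ∧
    (∀ (e n : ℕ) (he : e ≤ 1) (hn : 2 ≤ n) (hne : 3 ≤ n + e),
        Tendsto (varLog K e n) atTop atTop ∧
        (∀ (Z : ℕ) (D : 𝓞 K), 0 < jacProduct Z (poly e n D)) ∧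
        (∃ Ψ : ℂ → ℂ, Differentiable ℂ Ψ ∧ Ψ 0 = 1 ∧ (∀ x : ℝ, ∃ r : ℝ, 0 < r ∧ Ψ x = r) ∧
          ∀ (ι : Type) [Fintype ι] [DecidableEq ι] (ω : Module.Basis ι ℤ (𝓞 K)),
          ∀ R : ℝ, 0 ≤ R → ∀ θ : ℝ, 0 < θ → ∀ ε : ℝ, 0 < ε → ∃ Z₀ : ℕ, ∀ Z : ℕ, Z₀ ≤ Z →
            ∀ H : ℕ, Real.exp ((Z : ℝ) ^ (1 + θ)) ≤ H → ∀ κ : ℂ, ‖κ‖ ≤ R →
            ‖mean ω (fun _ => H) (nonzero K) (fun t => (jacProduct Z (poly e n (t ())) : ℂ) ^ κ) *
              Complex.exp (-(κ * meanLog K e n Z + κ ^ 2 * varLog K e n Z / 2)) - Ψ κ‖ ≤ ε) ∧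
        ∀ (ι : Type) [Fintype ι] [DecidableEq ι] (ω : Module.Basis ι ℤ (𝓞 K)),
          (∀ a : ℝ, ∀ ε : ℝ, 0 < ε → ∃ C Z₀ : ℕ, ∀ Z : ℕ, Z₀ ≤ Z →
            ∀ H : ℕ, Z ^ C ≤ H →
            |prop ω (fun _ => H) (nonzero K) (fun t => Real.log (jacProduct Z (poly e n (t ()))) ≤
              meanLog K e n Z + a * Real.sqrt (varLog K e n Z)) - Phi a| ≤ ε) ∧
          ∀ a : ℝ, 0 < a → ∃ C : ℝ, 0 < C ∧ ∃ Z₀ : ℕ, ∀ Z : ℕ, Z₀ ≤ Z →
            ∀ H : ℕ, (Z : ℝ) ^ (C * Real.log (Real.log Z)) ≤ H →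
            prop ω (fun _ => H) (nonzero K) (fun t => a * varLog K e n Z ≤
              |Real.log (jacProduct Z (poly e n (t ()))) - meanLog K e n Z|) ≤
              C * Real.exp (-(a ^ 2 / 2 * varLog K e n Z))) :=
  ⟨fun J _ _ 𝓕 I _ _ d hd hdd =>
      ⟨fun i Z t => tw_pos 𝓕 d i Z t, fun i => mean_bound 𝓕 d hd i, fun i j => cov_bound 𝓕 d hd hdd i j,
        ⟨(twData 𝓕 d).Psi, (twData 𝓕 d).Psi_cont, (twData 𝓕 d).Psi_line, (twData 𝓕 d).Psi_zero, (twData 𝓕 d).Psi_real,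
          fun _ _ _ ω _ hR _ hθ _ hε => tw_mod 𝓕 d ω hR hθ hε⟩,
        fun _ _ _ ω => ⟨fun a _ hε => tw_clt2 𝓕 d hd hdd ω a hε, fun i =>
          ⟨fun _ ha => tw_tail2 𝓕 d hd ω i ha, tw_round2 𝓕 d hd ω i⟩⟩⟩,
  fun e n he hn hne =>
      ⟨var_atTop K he hn hne, fun Z D => jac_pos he hn Z D,
        ⟨fun κ => (cmData K e n he hn).Psi (fun _ => κ), by simpa using (cmData K e n he hn).Psi_line (fun _ => 1),
          (cmData K e n he hn).Psi_zero, fun x => (cmData K e n he hn).Psi_real (fun _ => x),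
          fun _ _ _ ω _ hR _ hθ _ hε => cm_mod ω he hn hR hθ hε⟩,
        fun _ _ _ ω => ⟨fun a _ hε => cm_clt2 ω he hn hne a hε, fun _ ha => cm_tail2 ω he hn hne ha⟩⟩⟩

end Pool.Agent.Results.MP_dfae13_nt.CentralLimitLaws
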