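import Pool.Agent.Run7.h555.GR.Prod
import Pool.Agent.Run7.h555.GR.C15
import Pool.Agent.Run7.h555.GR.C21
import Pool.Agent.Run7.h555.GR.C24
import Pool.Agent.Run7.h238.J.Mix

/-!
# The leading-term formula for products of twists of `X_0(15)`, `X_0(21)`, `X_0(24)`: integral squares, the
# 2-part, and the exact joint law

Let `(N_1, a_1), ..., (N_k, a_k)` be finitely many pairs, `N_j ∈ {15, 21, 24}`, `a_j ≡ 1` modulo `4`
positive squarefree numbers (equal pairs are allowed), and let `b` modulo `M` be a residue class, prime to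
`M`, `840 ∣ M`, such that `a_j b` lies in the classes `23, 47` modulo `60` (`N_j = 15`), `19, 31, 55` modulo
`84` (`N_j = 21`), `11` modulo `24` (`N_j = 24`). For `n` squarefree, `n ≡ b` modulo `M`, let `A_n` be the
abelian variety of dimension `k` over `ℚ` which is the product of the quadratic twists by `-a_j n` of the
modular curves `X_0(N_j)` (no complex multiplication). Let `L(A_n, s)` be its L-function with all Euler
factors, and `z = #A_n(ℚ)_tors² L(A_n, 1) / (Ω ∏ c_p)`, which is zero or the order of `Ш(A_n/ℚ)` according to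
the conjecture. Without any hypothesis:
* `#A_n(ℚ)_tors = 4^k`, `L(A_n, s)` is entire, and `z = y²` for an integer `y`, for ALL these `n`;
* `y` is odd iff `A_n(ℚ)` is finite and `Ш(A_n/ℚ)` has no element of order two, iff the 2-part of the
  formula holds in the form `TwoPart`: `A_n(ℚ)` is finite, `Ш(A_n/ℚ)[2^∞] = 0`, `L(A_n, 1) ≠ 0`, and `z` is
  the square of an odd integer;
* this is so for exactly the proportion `η^r`, `η = ∏_{i ≥ 1} (1 - 2^{-i}) = 0.2888...`, of these `n`, where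
  `r` is the number of the different numbers among `a_1, ..., a_k`;
* more precisely, the 2-parts of factors with the same `a_j` hold for the same `n`, and for different `a_j`
  they are asymptotically independent: for every set `T` of multipliers, exactly the proportion
  `η^|T| (1 - η)^(r - |T|)` of the `n` has the property that `TwoPart` holds for the factor with the number
  `j` if and only if `a_j ∈ T`.
-/

set_option autoImplicit false

open NumberField IsDedekindDomain WeierstrassCurve MeasureTheory Filter Topology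

namespace Pool.Agent.Results.MP_dfae13_nt.ProductsOfTwistsTwoPart

open Pool.Agent.TH841.NF.D (Sha)
open Pool.Agent.TH841.SH.D (Pt)

/-! ### The formula for a product of elliptic curves -/

/-- The curve over `ℚ`. -/
abbrev base (W : WeierstrassCurve ℤ) : WeierstrassCurve ℚ := W.map (Int.castRingHom ℚ)

/-- The equation is minimal at the place `v`: no change of variables over `ℚ` that keeps the
coefficients integral at `v` decreases the order of the discriminant. -/
def MinimalAt (W : WeierstrassCurve ℚ) (v : HeightOneSpectrum (𝓞 ℚ)) : Prop :=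
  ∀ C : VariableChange ℚ, v.valuation ℚ (C • W).a₁ ≤ 1 → v.valuation ℚ (C • W).a₂ ≤ 1 →
    v.valuation ℚ (C • W).a₃ ≤ 1 → v.valuation ℚ (C • W).a₄ ≤ 1 → v.valuation ℚ (C • W).a₆ ≤ 1 →
    v.valuation ℚ (C • W).Δ ≤ v.valuation ℚ W.Δ

/-- `W⁰(ℚ_v)`, the group of the points of `W` over the completion `ℚ_v` with nonsingular reduction:
the point at infinity and the points `(x, y)` where `x` is not integral, or one of the partial
derivatives of `y² + a₁ x y + a₃ y - x³ - a₂ x² - a₄ x - a₆` is a unit at `(x, y)`.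
Here `Pt W ℚ_v` is the group of the points of `W` over `ℚ_v`. -/
noncomputable def nonsing (W : WeierstrassCurve ℚ) (v : HeightOneSpectrum (𝓞 ℚ)) :
    AddSubgroup (Pt W (v.adicCompletion ℚ)) :=
  AddSubgroup.closure {P | ∀ x y h, P = Affine.Point.some x y h →
    1 < Valued.v x ∨
    Valued.v ((W.baseChange (v.adicCompletion ℚ)).a₁ * y -
      (3 * x ^ 2 + 2 * (W.baseChange (v.adicCompletion ℚ)).a₂ * x +
        (W.baseChange (v.adicCompletion ℚ)).a₄)) = 1 ∨
    Valued.v (2 * y + (W.baseChange (v.adicCompletion ℚ)).a₁ * x +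
      (W.baseChange (v.adicCompletion ℚ)).a₃) = 1}

/-- The Tamagawa number `c_v = [W(ℚ_v) : W⁰(ℚ_v)]` of a minimal equation. -/
noncomputable def c (W : WeierstrassCurve ℚ) (v : HeightOneSpectrum (𝓞 ℚ)) : ℕ :=
  (nonsing W v).index

/-- `4 x³ + b₂ x² + 2 b₄ x + b₆ = (2 y + a₁ x + a₃)²`. -/
def cubic (W : WeierstrassCurve ℤ) (x : ℝ) : ℝ := 4 * x ^ 3 + W.b₂ * x ^ 2 + 2 * W.b₄ * x + W.b₆

/-- `∫_{W(ℝ)} |ω|` with `ω = dx / (2 y + a₁ x + a₃)`, as an integral over `x`: two real points lie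
over each `x` with `cubic x > 0`. -/
noncomputable def Omega (W : WeierstrassCurve ℤ) : ℝ :=
  2 * ∫ x in {x : ℝ | 0 < cubic W x}, 1 / √(cubic W x)

/-- `a_p = p + 1 - #W(𝔽_p)`, where the point at infinity and the singular point are counted: `p` minus
the number of the affine points modulo `p`. -/
noncomputable def tr (W : WeierstrassCurve ℤ) (p : ℕ) : ℤ :=
  (p : ℤ) - Nat.card {P : ZMod p × ZMod p //
    (W.map (Int.castRingHom (ZMod p))).toAffine.Equation P.1 P.2}

variable {k : ℕ}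

/-- The group of the rational points of the abelian variety `A = ∏_j W_j`. -/
abbrev Points (W : Fin k → WeierstrassCurve ℤ) : Type := ∀ j, (base (W j)).toAffine.Point

/-- The Tate-Shafarevich group of `A = ∏_j W_j`. -/
abbrev ShaOf (W : Fin k → WeierstrassCurve ℤ) : Type := ∀ j, Sha (base (W j))

open Classical in
/-- The order of the torsion subgroup of `A(ℚ)`. -/
noncomputable def torsOrder (W : Fin k → WeierstrassCurve ℤ) : ℕ :=
  Nat.card (AddCommGroup.torsion (Points W))

/-- The real period `∫_{A(ℝ)} |ω|` of `A = ∏_j W_j`. -/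
noncomputable def period (W : Fin k → WeierstrassCurve ℤ) : ℝ := ∏ j, Omega (W j)

/-- The product over all primes of the Tamagawa numbers of `A = ∏_j W_j`. -/
noncomputable def Tam (W : Fin k → WeierstrassCurve ℤ) : ℕ :=
  ∏ᶠ v : HeightOneSpectrum (𝓞 ℚ), ∏ j, c (base (W j)) v

/-- `F` is the L-function of `A = ∏_j W_j`: it is entire, and it is the complete Euler product for
`Re s > 3/2`; the primes of bad reduction of `W_j` are the prime divisors of `B_j`. -/
def IsLFun (W : Fin k → WeierstrassCurve ℤ) (B : Fin k → ℕ) (F : ℂ → ℂ) : Prop :=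
  Differentiable ℂ F ∧ ∀ s : ℂ, (3 : ℝ) / 2 < s.re →
    HasProd (fun p : ℕ => if p.Prime then ∏ j, (1 - (tr (W j) p : ℂ) * (p : ℂ) ^ (-s) +
      if p ∣ B j then 0 else (p : ℂ) ^ (1 - 2 * s))⁻¹ else 1) (F s)

/-- The order of the Tate-Shafarevich group of `A = ∏_j W_j` predicted by the formula, for the value `l`
of the L-function at `s = 1`: `#A(ℚ)_tors² l / (Ω ∏ c_v)`. -/
noncomputable def anOrder (W : Fin k → WeierstrassCurve ℤ) (l : ℂ) : ℂ :=
  l * (torsOrder W : ℂ) ^ 2 / ((period W : ℝ) * (Tam W : ℂ))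

/-- `A(ℚ)` is finite and `Ш(A/ℚ)` has no element of order two. -/
def Trivial (W : Fin k → WeierstrassCurve ℤ) : Prop :=
  Finite (Points W) ∧ ∀ x : ShaOf W, x + x = 0 → x = 0

/-- The 2-part of the conjecture, in the case that `z` is a unit at two: `A(ℚ)` is finite, the 2-primary
part of `Ш(A/ℚ)` is zero, the L-function `F` is entire with `F 1 ≠ 0`, and the predicted order of `Ш(A/ℚ)`
is the square of an odd integer. -/
def TwoPart (W : Fin k → WeierstrassCurve ℤ) (B : Fin k → ℕ) : Prop :=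
  Finite (Points W) ∧ (∀ (m : ℕ) (x : ShaOf W), 2 ^ m • x = 0 → x = 0) ∧
    ∃ F : ℂ → ℂ, IsLFun W B F ∧ F 1 ≠ 0 ∧ ∃ y : ℤ, Odd y ∧ anOrder W (F 1) = (y : ℂ) ^ 2

/-! ### The family -/

/-- The quadratic twist by `-m` of `X_0(N)`, `N = 15, 21, 24`, for `m` in the classes below:
`y² + x y + y = x³ - ((5 m + 1)/4) x² - ((19 m² + 1)/2) x + (39 m³ - 1)/4`,
`y² + x y = x³ - ((m + 1)/4) x² - 4 m² x + m³` and `y² = x³ + m x² - 4 m² x - 4 m³`. -/
def X0 (N m : ℕ) : WeierstrassCurve ℤ :=
  if N = 15 then ⟨1, -((5 * m + 1) / 4), 1, -((19 * m ^ 2 + 1) / 2), (39 * m ^ 3 - 1) / 4⟩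
  else if N = 21 then ⟨1, -((m + 1) / 4), 0, -(4 * m ^ 2), m ^ 3⟩
  else ⟨0, m, 0, -(4 * m ^ 2), -(4 * m ^ 3)⟩

/-- The residue classes: `23, 47` modulo `60`; `19, 31, 55` modulo `84`; `11` modulo `24`. -/
def Class (N m : ℕ) : Prop :=
  if N = 15 then m % 60 = 23 ∨ m % 60 = 47
  else if N = 21 then m % 84 = 19 ∨ m % 84 = 31 ∨ m % 84 = 55
  else m % 24 = 11

/-- The squarefree part of `a n`, for `a` and `n` squarefree. -/
def sq (a n : ℕ) : ℕ := a * n / Nat.gcd a n ^ 2

/-- The factors of the abelian variety `A_n`: for `f j = (N_j, a_j)` the twist by `-a_j n` of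
`X_0(N_j)`. -/
def A (f : Fin k → ℕ × ℕ) (n : ℕ) (j : Fin k) : WeierstrassCurve ℤ := X0 (f j).1 (sq (f j).2 n)

/-- The primes of bad reduction of the factors are the prime divisors of `N_j a_j n`. -/
def bad (f : Fin k → ℕ × ℕ) (n : ℕ) (j : Fin k) : ℕ := (f j).1 * sq (f j).2 n

/-- The condition on the family of the pairs `(N_j, a_j)` and on the residue class `b`. -/
def Admissible (f : Fin k → ℕ × ℕ) (b : ℕ) : Prop :=
  ∀ j, ((f j).1 = 15 ∨ (f j).1 = 21 ∨ (f j).1 = 24) ∧ Squarefree (f j).2 ∧ (f j).2 % 4 = 1 ∧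
    Class (f j).1 ((f j).2 * b)

/-- The number of the squarefree `n ≤ X`, `n ≡ b` modulo `M`, with the property `Q`. -/
noncomputable def num (M b : ℕ) (Q : ℕ → Prop) (X : ℕ) : ℕ :=
  Nat.card {n : ℕ // n ≤ X ∧ Squarefree n ∧ n % M = b % M ∧ Q n}

/-- There is no factorization `m = b c`, `b, c > 1`, such that `b` is a square modulo every prime divisor
of `c` and `c` is a square modulo every prime divisor of `b`. -/
def Criterion (m : ℕ) : Prop := ∀ b c : ℕ, b * c = m →
  (∀ p : ℕ, p.Prime → p ∣ c → IsSquare (b : ZMod p)) →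
  (∀ p : ℕ, p.Prime → p ∣ b → IsSquare (c : ZMod p)) → b = 1 ∨ c = 1

/-- the constant `0.2888...` -/
noncomputable def eta : ℝ := ∏' i : ℕ, (1 - (1 / 2 : ℝ) ^ (i + 1))

section proof

open Pool.Agent.N969.P15 (Qc)
open Pool.Agent.Run7.h238.J (tw dens_pat)
open Pool.Agent.Run7.h238.J.Mix (cls_mul cls4 cls_sq)
open Run7.h555.GR (Con)

theorem crit_iff {m : ℕ} (h : Squarefree m) : Criterion m ↔ Qc m := by
  have key : ∀ b c : ℕ, b * c = m → ((∀ p : ℕ, p.Prime → p ∣ c → IsSquare (b : ZMod p)) ↔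
      ∀ p ∈ c.primeFactors, jacobiSym b p = 1) := by
    intro b c hbc
    have hc0 : c ≠ 0 := by
      rintro rfl
      rw [mul_zero] at hbc
      exact h.ne_zero hbc.symm
    have hcop : b.Coprime c := Nat.coprime_of_squarefree_mul (by rw [hbc]; exact h)
    constructor
    · intro h1 p hp
      have hpp := Nat.prime_of_mem_primeFactors hp
      have hpc := Nat.dvd_of_mem_primeFactors hp
      have : Fact p.Prime := ⟨hpp⟩
      have hb0 : ((b : ℤ) : ZMod p) ≠ 0 := by
        intro h0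
        rw [ZMod.intCast_zmod_eq_zero_iff_dvd] at h0
        have h2 : p ∣ b := by exact_mod_cast h0
        exact hpp.one_lt.ne' (Nat.dvd_one.1 (hcop ▸ Nat.dvd_gcd h2 hpc))
      rw [← jacobiSym.legendreSym.to_jacobiSym, legendreSym.eq_one_iff p hb0]
      exact_mod_cast h1 p hpp hpc
    · intro h1 p hpp hpc
      have : Fact p.Prime := ⟨hpp⟩
      have h2 := h1 p (Nat.mem_primeFactors.2 ⟨hpp, hpc, hc0⟩)
      have hb0 : ((b : ℤ) : ZMod p) ≠ 0 := by
        intro h0
        rw [ZMod.intCast_zmod_eq_zero_iff_dvd] at h0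
        have h2 : p ∣ b := by exact_mod_cast h0
        exact hpp.one_lt.ne' (Nat.dvd_one.1 (hcop ▸ Nat.dvd_gcd h2 hpc))
      rw [← jacobiSym.legendreSym.to_jacobiSym, legendreSym.eq_one_iff p hb0] at h2
      exact_mod_cast h2
  unfold Criterion Qc
  refine forall_congr' fun b => forall_congr' fun c => forall_congr' fun hbc => ?_
  rw [key b c hbc, key c b (by rw [mul_comm]; exact hbc)]

/-- the conclusion for one factor -/
theorem con {N m : ℕ} (hN : N = 15 ∨ N = 21 ∨ N = 24) (hm : Squarefree m) (h : Class N m) :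
    Con (X0 N m) (N * m) m.primeFactors.card (Qc m) := by
  rcases hN with rfl | rfl | rfl
  · have h1 : m % 60 = 23 ∨ m % 60 = 47 := by
      simpa [Class] using h
    have e : X0 15 m = Run7.h555.GR.C15.C m := by
      unfold X0 Run7.h555.GR.C15.C
      rw [if_pos rfl]
    rw [e]
    exact Run7.h555.GR.C15.con ⟨hm, h1⟩
  · have h1 : m % 84 = 19 ∨ m % 84 = 31 ∨ m % 84 = 55 := by
      simpa [Class] using h
    have e : X0 21 m = Run7.h555.GR.C21.C m := by
      unfold X0 Run7.h555.GR.C21.C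
      rw [if_neg (by norm_num), if_pos rfl]
    rw [e]
    exact Run7.h555.GR.C21.con ⟨hm, h1⟩
  · have h1 : m % 24 = 11 := by
      simpa [Class] using h
    have e : X0 24 m = Run7.h555.GR.C24.C m := by
      unfold X0 Run7.h555.GR.C24.C
      rw [if_neg (by norm_num), if_neg (by norm_num)]
    rw [e]
    exact Run7.h555.GR.C24.con ⟨hm, h1⟩

theorem class_of {f : Fin k → ℕ × ℕ} {M b n : ℕ} (hM : 840 ∣ M) (hf : Admissible f b)
    (hb : n % M = b % M) (j : Fin k) : Class (f j).1 ((f j).2 * n) := by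
  have h1 : Pool.Agent.Run7.h238.J.Mix.Cls (f j).1 ((f j).2 * b) := (hf j).2.2.2
  rw [cls_mul] at h1
  have h2 : b % 840 = n % 840 := by
    rw [← Nat.mod_mod_of_dvd b hM, ← hb, Nat.mod_mod_of_dvd n hM]
  rw [h2, ← cls_mul] at h1
  exact h1

theorem fac {f : Fin k → ℕ × ℕ} {M b n : ℕ} (hM : 840 ∣ M) (hf : Admissible f b)
    (hn : Squarefree n) (hb : n % M = b % M) (j : Fin k) :
    Squarefree (sq (f j).2 n) ∧ Class (f j).1 (sq (f j).2 n) := by
  have h := Pool.Agent.Run7.h424.J.tw_spec (hf j).2.1 hn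
  refine ⟨h.1, ?_⟩
  have h1 : Pool.Agent.Run7.h238.J.Mix.Cls (f j).1 ((f j).2 * n) := class_of hM hf hb j
  rw [← h.2.2] at h1
  exact cls_sq h1

theorem cons {f : Fin k → ℕ × ℕ} {M b n : ℕ} (hM : 840 ∣ M) (hf : Admissible f b)
    (hn : Squarefree n) (hb : n % M = b % M) (j : Fin k) :
    Con (A f n j) (bad f n j) (sq (f j).2 n).primeFactors.card (Qc (sq (f j).2 n)) :=
  con (hf j).1 (fac hM hf hn hb j).1 (fac hM hf hn hb j).2

theorem two_iff {f : Fin k → ℕ × ℕ} {M b n : ℕ} (hM : 840 ∣ M) (hf : Admissible f b)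
    (hn : Squarefree n) (hb : n % M = b % M) :
    TwoPart (A f n) (bad f n) ↔ ∀ j, Qc (sq (f j).2 n) :=
  Run7.h555.GR.two_part (fun j => cons hM hf hn hb j)

theorem two_iff1 {f : Fin k → ℕ × ℕ} {M b n : ℕ} (hM : 840 ∣ M) (hf : Admissible f b)
    (hn : Squarefree n) (hb : n % M = b % M) (j : Fin k) :
    TwoPart (fun _ : Fin 1 => A f n j) (fun _ : Fin 1 => bad f n j) ↔ Qc (sq (f j).2 n) := by
  have h := Run7.h555.GR.two_part (k := 1) (W := fun _ => A f n j) (B := fun _ => bad f n j)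
    (w := fun _ => (sq (f j).2 n).primeFactors.card) (Q := fun _ => Qc (sq (f j).2 n))
    (fun _ => cons hM hf hn hb j)
  exact h.trans ⟨fun h1 => h1 0, fun h1 _ => h1⟩

open Classical in
theorem num_eq {M b : ℕ} {Q Q' : ℕ → Prop}
    (h : ∀ n, Squarefree n → n % M = b % M → (Q n ↔ Q' n)) (X : ℕ) :
    num M b Q X = ((Finset.Icc 1 X).filter fun n => Squarefree n ∧ n % M = b % M ∧ Q' n).card := by
  unfold num
  refine Nat.subtype_card _ fun n => ?_
  rw [Finset.mem_filter, Finset.mem_Icc]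
  constructor
  · rintro ⟨⟨-, h2⟩, h3, h4, h5⟩
    exact ⟨h2, h3, h4, (h n h3 h4).2 h5⟩
  · rintro ⟨h2, h3, h4, h5⟩
    exact ⟨⟨Nat.one_le_iff_ne_zero.2 h3.ne_zero, h2⟩, h3, h4, (h n h3 h4).1 h5⟩

/-- the multipliers -/
def mul (f : Fin k → ℕ × ℕ) : Finset ℕ := Finset.univ.image fun j => (f j).2

open Classical in
theorem law {f : Fin k → ℕ × ℕ} {M b : ℕ} (hk : 0 < k) (hM : 840 ∣ M) (hM0 : 0 < M)
    (hb : b.Coprime M) (hf : Admissible f b) {T : Finset ℕ} (hT : T ⊆ mul f) :
    Tendsto (fun X : ℕ => (num M b (fun n => ∀ j,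
        (TwoPart (fun _ : Fin 1 => A f n j) (fun _ : Fin 1 => bad f n j) ↔ (f j).2 ∈ T)) X : ℝ) /
      (num M b (fun _ => True) X : ℝ)) atTop
      (𝓝 (eta ^ T.card * (1 - eta) ^ ((mul f).card - T.card))) := by
  have hS : ∀ a ∈ mul f, Squarefree a ∧ a % 4 = 1 := by
    intro a ha
    obtain ⟨j, -, rfl⟩ := Finset.mem_image.1 ha
    exact ⟨(hf j).2.1, (hf j).2.2.1⟩
  have hu : T ∪ (mul f \ T) = mul f := Finset.union_sdiff_of_subset hT
  have h4 : ∀ n : ℕ, n % M = b % M → n % 4 = 3 := by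
    intro n hn
    have h1 : Pool.Agent.Run7.h238.J.Mix.Cls (f ⟨0, hk⟩).1 ((f ⟨0, hk⟩).2 * n) :=
      class_of hM hf hn ⟨0, hk⟩
    have h2 := cls4 h1
    have h3 := (hf ⟨0, hk⟩).2.2.1
    rw [Nat.mul_mod, h3] at h2
    omega
  have h := dens_pat (fun N => Pool.Agent.Run7.h289.J.t_JDQ _) T (mul f \ T)
    Finset.disjoint_sdiff (fun a ha => (hS a (hu ▸ ha)).1) (fun a ha => (hS a (hu ▸ ha)).2)
    M ((by norm_num : 8 ∣ 840).trans hM) hM0 (fun n => n % M = b % M)
    (fun n => by rw [Nat.mod_mod]) h4 b rfl hb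
  rw [Finset.card_sdiff_of_subset hT] at h
  refine h.congr fun X => ?_
  have e1 := num_eq (M := M) (b := b) (Q := fun n => ∀ j,
        (TwoPart (fun _ : Fin 1 => A f n j) (fun _ : Fin 1 => bad f n j) ↔ (f j).2 ∈ T))
    (Q' := fun n => (∀ a ∈ T, Qc (tw a n)) ∧ ∀ a ∈ mul f \ T, ¬ Qc (tw a n)) (by
      intro n hn hbn
      have hj := fun j => two_iff1 hM hf hn hbn j
      constructor
      · intro h5
        refine ⟨fun a ha => ?_, fun a ha hq => ?_⟩
        · obtain ⟨j, -, rfl⟩ := Finset.mem_image.1 (hT ha)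
          exact (hj j).1 ((h5 j).2 ha)
        · obtain ⟨ha1, ha2⟩ := Finset.mem_sdiff.1 ha
          obtain ⟨j, -, rfl⟩ := Finset.mem_image.1 ha1
          exact ha2 ((h5 j).1 ((hj j).2 hq))
      · rintro ⟨h5, h6⟩ j
        rw [hj j]
        constructor
        · intro hq
          by_contra hc
          exact h6 _ (Finset.mem_sdiff.2 ⟨Finset.mem_image_of_mem _ (Finset.mem_univ j), hc⟩) hq
        · exact fun hc => h5 _ hc) X
  have e2 := num_eq (M := M) (b := b) (Q := fun _ => True) (Q' := fun _ => True)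
    (fun _ _ _ => Iff.rfl) X
  rw [e1, e2]
  simp only [and_true]
  congr

end proof

/-- **The leading-term formula of Birch and Swinnerton-Dyer for products of twists of `X_0(15)`, `X_0(21)`,
`X_0(24)`: the predicted order of `Ш` is the square of an integer; the 2-part; the exact joint law.** -/
theorem result :
    ∀ (k : ℕ) (f : Fin k → ℕ × ℕ) (M b : ℕ), 0 < k → 0 < M → 840 ∣ M → b.Coprime M →
      Admissible f b →
    -- for all `n`
    (∀ n : ℕ, Squarefree n → n % M = b % M →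
      (∀ j, Squarefree (sq (f j).2 n) ∧ Class (f j).1 (sq (f j).2 n) ∧
        sq (f j).2 n * Nat.gcd (f j).2 n ^ 2 = (f j).2 * n) ∧
      (∀ j, ∀ w : HeightOneSpectrum (𝓞 ℚ), MinimalAt (base (A f n j)) w) ∧
      torsOrder (A f n) = 4 ^ k ∧
      Tam (A f n) = ∏ j, 4 ^ ((sq (f j).2 n).primeFactors.card + 1) ∧
      (∃ F : ℂ → ℂ, IsLFun (A f n) (bad f n) F ∧
        ∃ y : ℤ, anOrder (A f n) (F 1) = (y : ℂ) ^ 2 ∧ (Odd y ↔ Trivial (A f n))) ∧
      (TwoPart (A f n) (bad f n) ↔ Trivial (A f n)) ∧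
      (TwoPart (A f n) (bad f n) ↔ ∀ j, Criterion (sq (f j).2 n))) ∧
    -- the proportion
    Tendsto (fun X : ℕ => (num M b (fun n => TwoPart (A f n) (bad f n)) X : ℝ) /
      (num M b (fun _ => True) X : ℝ)) atTop (𝓝 (eta ^ (mul f).card)) ∧
    -- the joint law
    (∀ T : Finset ℕ, T ⊆ mul f →
      Tendsto (fun X : ℕ => (num M b (fun n => ∀ j,
          (TwoPart (fun _ : Fin 1 => A f n j) (fun _ : Fin 1 => bad f n j) ↔ (f j).2 ∈ T)) X : ℝ) /
        (num M b (fun _ => True) X : ℝ)) atTop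
        (𝓝 (eta ^ T.card * (1 - eta) ^ ((mul f).card - T.card)))) ∧
    -- the number of the `n`
    (∀ X : ℕ, 100 * M ^ 2 ≤ X → (X : ℝ) / (4 * M) ≤ num M b (fun _ => True) X) ∧
    0.2887 < eta ∧ eta < 0.2889 := by
  classical
  intro k f M b hk hM0 hM hb hf
  refine ⟨?_, ?_, fun T hT => law hk hM hM0 hb hf hT, ?_, Pool.Agent.N916.GB.eta_bounds.1,
    Pool.Agent.N916.GB.eta_bounds.2⟩
  · intro n hn hbn
    have hc := fun j => cons hM hf hn hbn j
    have hT : Trivial (A f n) ↔ ∀ j, Pool.Agent.N969.P15.Qc (sq (f j).2 n) :=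
      Run7.h555.GR.desc_two hc
    refine ⟨fun j => ⟨(fac hM hf hn hbn j).1, (fac hM hf hn hbn j).2,
      (Pool.Agent.Run7.h424.J.tw_spec (hf j).2.1 hn).2.2⟩, fun j w => (hc j).min w,
      Run7.h555.GR.tors_eq hc, Run7.h555.GR.tam_eq hc, ?_, ?_, ?_⟩
    · obtain ⟨F, hF, y, hy, hodd⟩ := Run7.h555.GR.val_prod hc
      exact ⟨F, hF, y, hy, hodd.trans hT.symm⟩
    · rw [hT]
      exact two_iff hM hf hn hbn
    · rw [two_iff hM hf hn hbn]
      exact forall_congr' fun j => (crit_iff (fac hM hf hn hbn j).1).symm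
  · have h := law hk hM hM0 hb hf (Finset.Subset.refl (mul f))
    rw [Nat.sub_self, pow_zero, mul_one] at h
    refine h.congr fun X => ?_
    have e := num_eq (M := M) (b := b) (Q := fun n => TwoPart (A f n) (bad f n))
      (Q' := fun n => ∀ j, (TwoPart (fun _ : Fin 1 => A f n j) (fun _ : Fin 1 => bad f n j) ↔
        (f j).2 ∈ mul f)) (by
        intro n hn hbn
        rw [two_iff hM hf hn hbn]
        refine forall_congr' fun j => ?_
        rw [two_iff1 hM hf hn hbn j]
        exact ⟨fun h1 => ⟨fun _ => Finset.mem_image_of_mem _ (Finset.mem_univ j), fun _ => h1⟩,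
          fun h1 => h1.2 (Finset.mem_image_of_mem _ (Finset.mem_univ j))⟩) X
    have e2 := num_eq (M := M) (b := b) (Q := fun n => ∀ j,
        (TwoPart (fun _ : Fin 1 => A f n j) (fun _ : Fin 1 => bad f n j) ↔ (f j).2 ∈ mul f))
      (Q' := fun n => ∀ j, (TwoPart (fun _ : Fin 1 => A f n j) (fun _ : Fin 1 => bad f n j) ↔
        (f j).2 ∈ mul f)) (fun _ _ _ => Iff.rfl) X
    rw [e, e2]
  · intro X hX
    have h1 := Run7.h843.G.low_P M ((by norm_num : 8 ∣ 840).trans hM) hM0 (fun n => n % M = b % M)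
      (fun n => by rw [Nat.mod_mod]) b rfl hb X hX
    have e2 := num_eq (M := M) (b := b) (Q := fun _ => True) (Q' := fun _ => True)
      (fun _ _ _ => Iff.rfl) X
    have e3 : num M b (fun _ => True) X =
        ((Finset.Icc 1 X).filter fun n => Squarefree n ∧ n % M = b % M).card := by
      rw [e2]
      simp only [and_true]
    rw [e3]
    refine le_trans (le_of_eq ?_) (h1.trans (le_of_eq ?_))
    · ring
    · congr

end Pool.Agent.Results.MP_dfae13_nt.ProductsOfTwistsTwoPart
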