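import Pool.Agent.Run7.h743.TE.Fin
import Pool.Agent.Y44.XF.Mind

/-!
# The 2-part of the Birch and Swinnerton-Dyer conjecture for `E_D ⊗ M` with nontrivial Tamagawa numbers

`E_D` is the quadratic twist by `D` of the modular curve `X_0(14)`, where `D = 1` modulo `4` is
squarefree, positive or negative, and `K` is a field of odd degree in which `2` and `7` are inert,
contained in the cyclotomic field of `q`-th roots of unity, `q` a power of a prime, with odd
narrow class number (for `q = 3^n` this is proved; then `K` is any layer of the cyclotomic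
`ℤ₃`-extension of `ℚ`).  Every prime `p` that divides `D` is supposed to be inert in `K`, or to be `5`
modulo `8` and inert in `ℚ(√-7)`; in the second case it may decompose in `K` in any way.
`M = ℤ^g` is a lattice with an action `ρ` of the Galois group of `K` without invariants, `g` arbitrary,
and `A = E_D ⊗ M`, an abelian variety over `ℚ` of dimension `g`.

For every such `D` and `M`, without any condition on the rank or the Tate-Shafarevich group of `E_D`, we
prove the 2-part of the Birch and Swinnerton-Dyer conjecture for `A`: the groups `A(ℚ)` and `A'(ℚ)`, for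
the dual `A' = E_D ⊗ M^∨`, are finite of odd order, `Ш(A/ℚ)[2^∞] = 0`, the `L`-function of `A` is entire,
`L(A, 1) ≠ 0` is a rational number times the period `(∫_{E_D(ℝ)} |ω|) ^ g`, and the 2-adic valuation of
this rational number is that of the product of the Tamagawa numbers of `A`.

The starting file `MP_dfae13_nt/OddTensorTwists` is the case that all the primes `p ∣ D` are inert in
`K`.  Then all the Tamagawa numbers are odd.  With the primes that split in `K` the Tamagawa number of
`A` at `p` is `2 ^ rank M^{Frob_p}`, and the value of the `L`-function is divisible by exactly the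
product of these numbers.

The Tamagawa numbers.  At a prime `p ∣ D` the curve `E_D` has reduction of type `I₀*`; the component
group `Φ` over an algebraic closure of the residue field is isomorphic to the group of the points of
order two, `Φ = (ℤ/2)²`, and the Frobenius exchanges the two coordinates if `-7` is not a square
modulo `p` (the points of order two, apart from the rational one, are defined over `ℚ(√-7)`), and acts
trivially otherwise.  As `M` is unramified at `p`, the component group of `A` is `Φ ⊗ M`, and the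
Tamagawa number is the number of the fixed points of the Frobenius; this is the number `tamagawa` below.
The other Tamagawa numbers are odd: at `2` and `7` the 2-part of the group of components of `E_D` is of
order two or one, and `Frob` generates the group of odd order that acts on `M` without invariants; at the
prime `l ∣ q` the 2-part is zero since `A` acquires good reduction over an extension of odd degree.
Complex conjugation acts trivially on `M`, so that `A(ℝ) = E_D(ℝ) ^ g`, and the Néron differential of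
`A` is the product of the Néron differentials of `E_D` outside the prime `l ∣ q`, and it differs from it
by a power of `l` as the action of the group of odd order on the determinant of `M` is trivial.

The proof.  `L(A, s)` is the product of the `L(E, χ ψ_D, s)` over the `g` characters `χ ≠ 1` in `M`.
If `P` is the set of the prime divisors `p` of `D` with `χ(p) = 1`, the class sums of modular symbols
show that the algebraic part of `L(E, χ ψ_D, 1)` is `2^{#P}` times an element which does not vanish
modulo the primes above `2`.  The product over the family of the characters, stable under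
conjugation, is `2 ^ (∑_{p ∣ D} rank M^{Frob_p})` times an odd integer.  On the algebraic side the
2-Selmer groups of `E_D` over `K` and `ℚ` agree, as `2` and `-7` are nonsquares modulo the places of `K`
above the primes that split.
-/

set_option autoImplicit false

open NumberField NumberField.InfinitePlace IsDedekindDomain WeierstrassCurve MeasureTheory

namespace Pool.Agent.Results.MP_dfae13_nt.TensorArbitrarySplitting

open scoped Classical

open Pool.Agent.TH841.SH.D (Pt act Gal)

open Pool.Agent.Y682 (NCl)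

/-- The quadratic twist `E_D` of `X_0(14)` (`D = 1` modulo `4`), with its global minimal equation
`y² + x y + y = x³ + ((D - 1)/4) x² + ((9 D² - 1)/2) x - (23 D³ + 1)/4`.  It is isomorphic to
`Y² = X (X² + 13 D X + 128 D²)` by `X = 4 (x - D)`, `Y = 4 (2 y + x + 1)`. -/
def twist (D : ℤ) : WeierstrassCurve ℤ :=
  ⟨1, (D - 1) / 4, 1, (9 * D ^ 2 - 1) / 2, -((23 * D ^ 3 + 1) / 4)⟩

/-- The curve given by the equation of `W` over the ring `R`. -/
abbrev base (W : WeierstrassCurve ℤ) (R : Type) [CommRing R] : WeierstrassCurve R :=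
  W.map (Int.castRingHom R)

/-- The number of the affine points `(x, y)` over the ring `R`. -/
noncomputable def pts (W : WeierstrassCurve ℤ) (R : Type) [CommRing R] : ℕ :=
  Nat.card {P : R × R // (base W R).toAffine.Equation P.1 P.2}

/-- The equation is minimal at the prime `v` of `ℚ`: no change of variables over `ℚ` that keeps the
coefficients integral at `v` decreases the valuation of the discriminant. -/
def MinimalAt (W : WeierstrassCurve ℤ) (v : HeightOneSpectrum (𝓞 ℚ)) : Prop :=
  ∀ C : VariableChange ℚ, v.valuation ℚ (C • base W ℚ).a₁ ≤ 1 →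
    v.valuation ℚ (C • base W ℚ).a₂ ≤ 1 → v.valuation ℚ (C • base W ℚ).a₃ ≤ 1 →
    v.valuation ℚ (C • base W ℚ).a₄ ≤ 1 → v.valuation ℚ (C • base W ℚ).a₆ ≤ 1 →
    v.valuation ℚ (C • base W ℚ).Δ ≤ v.valuation ℚ (base W ℚ).Δ

/-- `4 x³ + b₂ x² + 2 b₄ x + b₆ = (2 y + a₁ x + a₃)²`, where `b₂ = a₁² + 4 a₂`,
`b₄ = 2 a₄ + a₁ a₃`, `b₆ = a₃² + 4 a₆`. -/
def cubic (W : WeierstrassCurve ℤ) {R : Type} [CommRing R] (x : R) : R :=
  4 * x ^ 3 + W.b₂ * x ^ 2 + 2 * W.b₄ * x + W.b₆

/-- `∫_{W(ℝ)} |ω|` with `ω = dx / (2 y + a₁ x + a₃)`, as an integral over `x`: two real points lie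
over each `x` with `cubic x > 0`. -/
noncomputable def realPeriod (W : WeierstrassCurve ℤ) : ℝ :=
  2 * ∫ x in {x : ℝ | 0 < cubic W x}, 1 / √(cubic W x)

section tensor

/-! ### The abelian variety `A = E ⊗ M`, `M = ℤ^g`

Its points over an algebraic closure of `ℚ` are the `g`-tuples of points of `E`; the Galois group of `ℚ`
acts on them by its action on `E` and the matrices `R(σ)`. -/

/-- The action of an integral matrix on `ℤ^g ⊗ G = G^g`. -/
def mat {G : Type} [AddCommGroup G] {g : ℕ} (A : Matrix (Fin g) (Fin g) ℤ) (P : Fin g → G) :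
    Fin g → G := fun i => ∑ j, A i j • P j

variable {g : ℕ} (W : WeierstrassCurve ℤ) (R : Gal ℚ →* GL (Fin g) ℤ)

/-- The points of `A` over an extension of `ℚ` over which the action on `M` is trivial. -/
abbrev PtA (g : ℕ) (L : Type) [Field L] [Algebra ℚ L] : Type := Fin g → Pt (base W ℚ) L

/-- The action of the Galois group on the points of `A`: `σ` applied to the coordinates, and then the
matrix `R(σ)`. -/
noncomputable def actA (σ : Gal ℚ) (P : PtA W g (AlgebraicClosure ℚ)) :
    PtA W g (AlgebraicClosure ℚ) :=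
  mat (R σ : Matrix (Fin g) (Fin g) ℤ) (fun i => act (base W ℚ) σ.toAlgHom (P i))

/-- `A(ℚ)`. -/
def ptsA : Set (PtA W g (AlgebraicClosure ℚ)) := {P | ∀ σ : Gal ℚ, actA W R σ P = P}

/-- `f` is a continuous cocycle with values in `A`: `f (σ τ) = f σ + σ (f τ)`. -/
def IsCocycle (f : Gal ℚ → PtA W g (AlgebraicClosure ℚ)) : Prop :=
  IsLocallyConstant f ∧ ∀ σ τ : Gal ℚ, f (σ * τ) = f σ + actA W R σ (f τ)

/-- `f` is a coboundary: `f σ = σ P - P`. -/
def IsCoboundary (f : Gal ℚ → PtA W g (AlgebraicClosure ℚ)) : Prop :=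
  ∃ P : PtA W g (AlgebraicClosure ℚ), ∀ σ : Gal ℚ, f σ = actA W R σ P - P

/-- For every embedding of the algebraic closures the restriction of `f` to the absolute Galois
group of `K` is a coboundary: `f σ = τ P - P` for `τ` in this group with restriction `σ`. -/
def LocTriv (K : Type) [Field K] [Algebra ℚ K] (f : Gal ℚ → PtA W g (AlgebraicClosure ℚ)) : Prop :=
  ∀ ι : AlgebraicClosure ℚ →ₐ[ℚ] AlgebraicClosure K, ∃ P : PtA W g (AlgebraicClosure K),
    ∀ (τ : Gal K) (σ : Gal ℚ), (∀ x, τ (ι x) = ι (σ x)) →
      (fun i => act (base W ℚ) ι (f σ i)) = mat (R σ : Matrix (Fin g) (Fin g) ℤ)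
        (fun i => act (base W ℚ) (τ.toAlgHom.restrictScalars ℚ) (P i)) - P

/-- `f` is a continuous cocycle that is locally trivial at all the places of `ℚ`; its class is an
element of `Ш(A/ℚ)`, and this is zero if and only if `f` is a coboundary. -/
def IsShaCocycle (f : Gal ℚ → PtA W g (AlgebraicClosure ℚ)) : Prop :=
  IsCocycle W R f ∧ (∀ (p : ℕ) [Fact p.Prime], LocTriv W R ℚ_[p] f) ∧ LocTriv W R ℝ f

end tensor

section lattice

variable {q g : ℕ} (ρ : (ZMod q)ˣ →* GL (Fin g) ℤ)

/-- The matrix `ρ(p)` of the Frobenius automorphism at a prime `p` that does not divide `q`, and zero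
at the other prime (where the inertia group acts without invariants on `M`). -/
noncomputable def frob (p : ℕ) : Matrix (Fin g) (Fin g) ℤ :=
  if h : p.Coprime q then (ρ (ZMod.unitOfCoprime p h) : Matrix (Fin g) (Fin g) ℤ) else 0

/-- The Euler factor of `L(A, s)` at the prime `p`, `A = E ⊗ M`:
`det (1 - a_p p^(-s) ρ(p) + p^(1 - 2 s) ρ(p)²)⁻¹`, and `det (1 - a_p p^(-s) ρ(p))⁻¹` if `p` divides the
discriminant of `E`, where `a_p = p - pts` as `pts` does not count the point at infinity. -/
noncomputable def euler (W : WeierstrassCurve ℤ) (s : ℂ) (p : ℕ) : ℂ :=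
  (1 - ((((p : ℤ) - pts W (ZMod p) : ℤ) : ℂ) * (p : ℂ) ^ (-s)) •
      (frob ρ p).map (Int.cast : ℤ → ℂ) +
    (if (p : ℤ) ∣ W.Δ then 0 else (p : ℂ) ^ (1 - 2 * s)) •
      ((frob ρ p).map (Int.cast : ℤ → ℂ)) ^ 2).det⁻¹

end lattice

/-- The contragredient: `A ↦ (A⁻¹)ᵀ`.  It gives the action on the dual lattice `M^∨`. -/
noncomputable def contra (g : ℕ) : GL (Fin g) ℤ →* GL (Fin g) ℤ where
  toFun A := ⟨((A⁻¹ : GL (Fin g) ℤ) : Matrix (Fin g) (Fin g) ℤ).transpose,
    ((A : GL (Fin g) ℤ) : Matrix (Fin g) (Fin g) ℤ).transpose, by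
      rw [← Matrix.transpose_mul, ← Units.val_mul, mul_inv_cancel, Units.val_one,
        Matrix.transpose_one], by
      rw [← Matrix.transpose_mul, ← Units.val_mul, inv_mul_cancel, Units.val_one,
        Matrix.transpose_one]⟩
  map_one' := by
    apply Units.ext
    show ((1⁻¹ : GL (Fin g) ℤ) : Matrix (Fin g) (Fin g) ℤ).transpose = 1
    rw [inv_one, Units.val_one, Matrix.transpose_one]
  map_mul' A B := by
    apply Units.ext
    show (((A * B)⁻¹ : GL (Fin g) ℤ) : Matrix (Fin g) (Fin g) ℤ).transpose =
      ((A⁻¹ : GL (Fin g) ℤ) : Matrix (Fin g) (Fin g) ℤ).transpose *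
        ((B⁻¹ : GL (Fin g) ℤ) : Matrix (Fin g) (Fin g) ℤ).transpose
    rw [mul_inv_rev, Units.val_mul, Matrix.transpose_mul]

/-- The Tamagawa number of `A = E_D ⊗ M` at a prime `p` that divides `D`: the number of the fixed points
of the Frobenius on the component group `Φ ⊗ M = Φ^g`, where `Φ = (ℤ/2)²` is the component group of `E_D`
at `p` over an algebraic closure, on which the Frobenius acts trivially if `-7` is a square modulo `p`,
and by the exchange of the coordinates otherwise. -/
noncomputable def tamagawa {q g : ℕ} (ρ : (ZMod q)ˣ →* GL (Fin g) ℤ) (p : ℕ) : ℕ :=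
  Nat.card {x : Fin g → ZMod 2 × ZMod 2 // ∀ i,
    (if IsSquare (-7 : ZMod p) then id else Prod.swap) (∑ j, frob ρ p i j • x j) = x i}

/-- The lattice of the vectors of `M` that are fixed by the Frobenius at `p`. -/
noncomputable def fixedLattice {q g : ℕ} (ρ : (ZMod q)ˣ →* GL (Fin g) ℤ) (p : ℕ) :
    AddSubgroup (Fin g → ℤ) where
  carrier := {x | (frob ρ p).mulVec x = x}
  zero_mem' := Matrix.mulVec_zero _
  add_mem' := fun {x y} hx hy => by
    show (frob ρ p).mulVec (x + y) = x + y
    rw [Matrix.mulVec_add, show (frob ρ p).mulVec x = x from hx,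
      show (frob ρ p).mulVec y = y from hy]
  neg_mem' := fun {x} hx => by
    show (frob ρ p).mulVec (-x) = -x
    rw [Matrix.mulVec_neg, show (frob ρ p).mulVec x = x from hx]

/-- The `L`-function of `A = E_D ⊗ M` is entire, its order at `s = 1` is `0`, and
`L(A, 1) = r (∫_{E(ℝ)} |ω|) ^ g`, where `r` is a rational number with the same 2-adic valuation as the
product of the Tamagawa numbers at the primes that divide `D`. -/
def Formula (D : ℤ) {q g : ℕ} (ρ : (ZMod q)ˣ →* GL (Fin g) ℤ) : Prop :=
  ∃ L : ℂ → ℂ, Differentiable ℂ L ∧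
    (∀ s : ℂ, 3 / 2 < s.re → HasProd (fun p : Nat.Primes => euler ρ (twist D) s p) (L s)) ∧
    analyticOrderAt L 1 = 0 ∧ 0 < realPeriod (twist D) ∧
    ∃ r : ℚ, L 1 = r * ((realPeriod (twist D) ^ g : ℝ) : ℂ) ∧ r ≠ 0 ∧
      padicValRat 2 r = padicValNat 2 (∏ p ∈ D.natAbs.primeFactors, tamagawa ρ p)

/-- **The 2-part of the Birch and Swinnerton-Dyer conjecture** for `A = E_D ⊗ M` over `ℚ`: the equation
of `E_D` is minimal; the groups of the rational points of `A` and of its dual are finite of odd order;
the 2-primary part of the Tate-Shafarevich group is zero; the `L`-function is entire and its order at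
`s = 1` is the rank `0`; and `L(A, 1) = r (∫_{E(ℝ)} |ω|) ^ g`, where `r` is a rational number with the
same 2-adic valuation as the product of the Tamagawa numbers at the primes that divide `D` (the others
are odd).  The Tamagawa number at `p` is `2` to the power of the rank of the lattice fixed by the
Frobenius at `p`.  Here `κ` is the cyclotomic character, and `ρ ∘ κ` the action of the Galois group of
`ℚ` on `M`. -/
structure TwoPart (D : ℤ) {q g : ℕ} (ρ : (ZMod q)ˣ →* GL (Fin g) ℤ)
    (κ : Gal ℚ →* (ZMod q)ˣ) : Prop where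
  minimal : ∀ v : HeightOneSpectrum (𝓞 ℚ), MinimalAt (twist D) v
  points : Finite (ptsA (twist D) (ρ.comp κ)) ∧ Odd (Nat.card (ptsA (twist D) (ρ.comp κ)))
  dual : Finite (ptsA (twist D) ((contra g).comp (ρ.comp κ))) ∧
    Odd (Nat.card (ptsA (twist D) ((contra g).comp (ρ.comp κ))))
  sha : ∀ f, IsShaCocycle (twist D) (ρ.comp κ) f → ∀ k : ℕ,
    IsCoboundary (twist D) (ρ.comp κ) (2 ^ k • f) → IsCoboundary (twist D) (ρ.comp κ) f
  formula : Formula D ρ
  tam : ∀ p : ℕ, p.Prime → (p : ℤ) ∣ D → tamagawa ρ p = 2 ^ Module.finrank ℤ (fixedLattice ρ p)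

/-- The conditions on the field: `q` is a power of three, or `2` and `7` are inert in `K` and the narrow
class number of `K` is odd. -/
def FieldOK (q : ℕ) (K : Type) [Field K] [NumberField K] : Prop :=
  3 ∣ q ∨ ((Ideal.span {((2 : ℕ) : 𝓞 K)}).IsPrime ∧
    (Ideal.span {((7 : ℕ) : 𝓞 K)}).IsPrime ∧ Odd (Nat.card (NCl K)))

/-- Each prime divisor `p` of `D` does not divide `14 q`, and `p` is inert in `K`, or it is `5` modulo `8`
and not a square modulo `7`, with arbitrary decomposition in `K`. -/
def Allowed (q : ℕ) (K : Type) [Field K] [NumberField K] (D : ℤ) : Prop :=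
  ∀ p : ℕ, p.Prime → (p : ℤ) ∣ D → ¬ p ∣ 14 * q ∧
    ((Ideal.span {((p : ℕ) : 𝓞 K)}).IsPrime ∨
      (p % 8 = 5 ∧ (p % 7 = 3 ∨ p % 7 = 5 ∨ p % 7 = 6)))

/-- The action of `(ℤ/q)ˣ` on `M = ℤ^g` fixes no nonzero vector. -/
def NoInvariants {q g : ℕ} (ρ : (ZMod q)ˣ →* GL (Fin g) ℤ) : Prop :=
  ∀ x : Fin g → ℤ, (∀ u : (ZMod q)ˣ, (ρ u : Matrix (Fin g) (Fin g) ℤ).mulVec x = x) → x = 0

/-- The action of `(ℤ/q)ˣ = Gal(C/ℚ)` on `M` is trivial on `Gal(C/K)`. -/
def TrivialOver {q g : ℕ} [NeZero q] {C : Type} [Field C] [NumberField C]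
    [IsCyclotomicExtension {q} ℚ C] (K : IntermediateField ℚ C)
    (ρ : (ZMod q)ˣ →* GL (Fin g) ℤ) : Prop :=
  ∀ σ : C ≃ₐ[ℚ] C, (∀ x ∈ K, σ x = x) → ρ (IsCyclotomicExtension.Rat.galEquivZMod q C σ) = 1

/-- `κ` is the cyclotomic character modulo `q`. -/
def IsCyclotomic (q : ℕ) (κ : Gal ℚ →* (ZMod q)ˣ) : Prop :=
  ∀ (σ : Gal ℚ) (ζ : AlgebraicClosure ℚ), ζ ^ q = 1 → σ ζ = ζ ^ ((κ σ : ZMod q)).val

/-- **Main theorem.** Let `q` be a power of a prime, prime to `14`, and let `K` be a subfield of odd
degree of the `q`-th cyclotomic field `C`.  Suppose that `q` is a power of three, or that `2` and `7` are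
inert in `K` and the narrow class number of `K` is odd.  Let `D = 1` modulo `4` be squarefree, positive
or negative, such that the prime divisors of `D` do not divide `14 q` and are inert in `K`, or `5`
modulo `8` and not squares modulo `7` (with arbitrary decomposition in `K`).  Let `ρ` be
an action of `(ℤ/q)ˣ = Gal(C/ℚ)` on `M = ℤ^g`, where `g` is arbitrary, that is trivial on `Gal(C/K)` and
fixes no nonzero vector.  Then the 2-part of the Birch and Swinnerton-Dyer conjecture holds for
`A = E_D ⊗ M`: the orders of `A(ℚ)`, `A'(ℚ)` are odd, `Ш(A)[2^∞] = 0` and `L(A, 1)` divided by the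
period is a rational number with the 2-adic valuation of the product of the Tamagawa numbers. -/
theorem result (q : ℕ) [NeZero q] (hq : IsPrimePow q) (hco : q.Coprime 14)
    (C : Type) [Field C] [NumberField C] [IsCyclotomicExtension {q} ℚ C]
    (K : IntermediateField ℚ C) (hodd : Odd (Module.finrank ℚ K))
    (hcl : FieldOK q K) (D : ℤ) (hD : Squarefree D) (hD4 : D % 4 = 1) (hDp : Allowed q K D)
    (g : ℕ) (ρ : (ZMod q)ˣ →* GL (Fin g) ℤ) (hρ : TrivialOver K ρ) (hinv : NoInvariants ρ)
    (κ : Gal ℚ →* (ZMod q)ˣ) (hκ : IsCyclotomic q κ) : TwoPart D ρ κ := by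
  obtain ⟨⟨a1, a2, a3⟩, L, b1, b2, r, b3, b4, b5, b6, b7⟩ := Pool.Agent.Run7.h743.TE.main_IS q hq hco
    C K hodd hcl D hD hD4 hDp g ρ hρ hinv κ hκ
  have hD14 : (D.natAbs).Coprime 14 := by
    refine Nat.coprime_of_dvd ?_
    intro p hp hpd' hp14
    exact (hDp p hp (Int.natCast_dvd.2 hpd')).1 (dvd_mul_of_dvd_left hp14 _)
  have b7' : ∀ p ∈ D.natAbs.primeFactors, tamagawa ρ p =
      2 ^ Module.finrank ℤ (LinearMap.ker (Matrix.toLin' (frob ρ p - 1))) := b7
  have hfx : ∀ p : ℕ, Module.finrank ℤ (LinearMap.ker (Matrix.toLin' (frob ρ p - 1))) =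
      Module.finrank ℤ (fixedLattice ρ p) := by
    intro p
    have hmem : ∀ x : Fin g → ℤ, x ∈ LinearMap.ker (Matrix.toLin' (frob ρ p - 1)) ↔
        x ∈ fixedLattice ρ p := by
      intro x
      rw [LinearMap.mem_ker, Matrix.toLin'_apply, Matrix.sub_mulVec, Matrix.one_mulVec, sub_eq_zero]
      rfl
    let e : LinearMap.ker (Matrix.toLin' (frob ρ p - 1)) ≃+ fixedLattice ρ p :=
      { toFun := fun x => ⟨x.1, (hmem _).1 x.2⟩
        invFun := fun x => ⟨x.1, (hmem _).2 x.2⟩
        left_inv := fun _ => rfl
        right_inv := fun _ => rfl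
        map_add' := fun _ _ => rfl }
    exact e.toIntLinearEquiv.finrank_eq
  refine ⟨?_, a1, a2, ?_, ⟨L, b1, b2, ?_, b6, r, b5, b3, ?_⟩, fun p hp hpD => ?_⟩
  · exact Pool.Agent.Y44.XF.s_mind D hD hD4 hD14 ℚ
      (fun p hp _ => Pool.Agent.Y682.XF.prime_Q hp)
  · intro f hf k hk
    exact a3 f hf k hk
  · refine analyticOrderAt_eq_zero.2 (Or.inr ?_)
    rw [b5]
    refine mul_ne_zero (Rat.cast_ne_zero.2 b3) ?_
    have h1 : (realPeriod (twist D)) ^ g ≠ 0 := (pow_pos b6 g).ne'
    exact_mod_cast h1
  · rw [b4]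
    have hfact : Fact (Nat.Prime 2) := ⟨Nat.prime_two⟩
    have h1 : ∀ s : Finset ℕ, (∀ p ∈ s, tamagawa ρ p ≠ 0) →
        padicValNat 2 (∏ p ∈ s, tamagawa ρ p) = ∑ p ∈ s, padicValNat 2 (tamagawa ρ p) := by
      intro s
      induction s using Finset.induction_on with
      | empty =>
        intro _
        rw [Finset.prod_empty, Finset.sum_empty, padicValNat_one_right]
      | insert p s hp ih =>
        intro h
        rw [Finset.prod_insert hp, Finset.sum_insert hp, padicValNat.mul
          (h p (Finset.mem_insert_self _ _))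
          (Finset.prod_ne_zero_iff.2 fun p hp => h p (Finset.mem_insert_of_mem hp)),
          ih fun p hp => h p (Finset.mem_insert_of_mem hp)]
    rw [h1 _ fun p hp => by rw [b7' p hp]; positivity]
    rfl
  · rw [← hfx]
    exact b7' p (Nat.mem_primeFactors.2 ⟨hp, Int.natCast_dvd.1 hpD, by omega⟩)

end Pool.Agent.Results.MP_dfae13_nt.TensorArbitrarySplitting
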